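import Pool.Agent.N550.TS.Stm2
import Pool.Agent.N550.KH.Supp

/-!
# Project TS: flattening at an isolated singular point, manifolds
-/

set_option autoImplicit false

open Set Filter Topology Metric Function MeasureTheory
open scoped Manifold ContDiff

noncomputable section

namespace Pool.Agent.N550.TS.Flm

open Pool.Agent.Y522 Pool.Agent.N550.KH Pool.Agent.N550.KH.Supp Pool.Agent.N550.TS

/-! ### Cells -/

/-- the standard diffeomorphism onto a ball -/
theorem ld_univBall {n : ℕ} {c : E n} {r : ℝ} (hr : 0 < r) (x : E n) :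
    LD n (OpenPartialHomeomorph.univBall c r) x := by
  refine ⟨{ toPartialEquiv := (OpenPartialHomeomorph.univBall c r).toPartialEquiv
            open_source := (OpenPartialHomeomorph.univBall c r).open_source
            open_target := (OpenPartialHomeomorph.univBall c r).open_target
            contMDiffOn_toFun := ?_
            contMDiffOn_invFun := ?_ }, ?_, ?_⟩
  · exact (contMDiff_iff_contDiff.2 OpenPartialHomeomorph.contDiff_univBall).contMDiffOn
  · have h1 : ContDiffOn ℝ ∞ (OpenPartialHomeomorph.univBall c r).symm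
        (OpenPartialHomeomorph.univBall c r).target := by
      rw [OpenPartialHomeomorph.univBall_target c hr]
      exact OpenPartialHomeomorph.contDiffOn_univBall_symm
    exact contMDiffOn_iff_contDiffOn.2 h1
  · change x ∈ (OpenPartialHomeomorph.univBall c r).source
    rw [OpenPartialHomeomorph.univBall_source]
    exact mem_univ _
  · intro y _
    rfl

/-- the chart as a partial diffeomorphism -/
def chPD {n : ℕ} {X : Type} [TopologicalSpace X] [ChartedSpace (E n) X] [IsManifold (𝓡 n) ∞ X]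
    (x : X) : PartialDiffeomorph (𝓡 n) (𝓡 n) X (E n) ∞ where
  toPartialEquiv := (chartAt (E n) x).toPartialEquiv
  open_source := (chartAt (E n) x).open_source
  open_target := (chartAt (E n) x).open_target
  contMDiffOn_toFun := contMDiffOn_chart
  contMDiffOn_invFun := contMDiffOn_chart_symm

theorem ld_chart_symm {n : ℕ} {X : Type} [TopologicalSpace X] [ChartedSpace (E n) X]
    [IsManifold (𝓡 n) ∞ X] (x₀ : X) (z : E n) (hz : z ∈ (chartAt (E n) x₀).target) :
    LD n (chartAt (E n) x₀).symm z :=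
  ⟨(chPD x₀).symm, hz, fun _ _ => rfl⟩

/-- an open cell centered at a given point -/
theorem exists_cell0 {n : ℕ} {X : Type} [TopologicalSpace X] [ChartedSpace (E n) X]
    [IsManifold (𝓡 n) ∞ X] (x₀ : X) :
    ∃ c : E n → X, Injective c ∧ (∀ z, LD n c z) ∧ c 0 = x₀ := by
  set e := chartAt (E n) x₀ with he
  have h1 : e x₀ ∈ e.target := e.map_source (mem_chart_source _ x₀)
  obtain ⟨r, hr, hball⟩ := Metric.isOpen_iff.1 e.open_target _ h1
  set B := OpenPartialHomeomorph.univBall (e x₀) r with hB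
  have hsrc : B.source = univ := OpenPartialHomeomorph.univBall_source _ _
  have htgt : B.target = ball (e x₀) r := OpenPartialHomeomorph.univBall_target _ hr
  have hmem : ∀ z, B z ∈ e.target := by
    intro z
    apply hball
    rw [← htgt]
    exact B.map_source (by rw [hsrc]; exact mem_univ _)
  refine ⟨fun z => e.symm (B z), ?_, ?_, ?_⟩
  · intro x y hxy
    have h2 : B x = B y := e.symm.injOn (hmem x) (hmem y) hxy
    exact B.injOn (by rw [hsrc]; exact mem_univ _) (by rw [hsrc]; exact mem_univ _) h2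
  · intro z
    exact LD.comp_fun (g := e.symm) (f := B) (ld_chart_symm x₀ _ (hmem z)) (ld_univBall hr z)
  · change e.symm (B 0) = x₀
    rw [hB, OpenPartialHomeomorph.univBall_apply_zero]
    exact e.left_inv (mem_chart_source _ x₀)

/-! ### The radial map -/

section radial

variable {n : ℕ} {θ : ℝ → ℝ}

/-- the radial map -/
def rad (θ : ℝ → ℝ) (v : E n) : E n := θ (‖v‖ ^ 2) • v

theorem rad_smooth (h : ContDiff ℝ ∞ θ) : ContDiff ℝ ∞ (rad θ : E n → E n) :=
  (h.comp (contDiff_norm_sq ℝ)).smul contDiff_id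

theorem rad_far (h1 : ∀ s, 1 ≤ s → θ s = 1) {v : E n} (hv : 1 ≤ ‖v‖) : rad θ v = v := by
  unfold rad
  rw [h1 _ (one_le_pow₀ hv), one_smul]

theorem rho_lt (hm : Monotone θ) (hp : ∀ s, 0 < s → 0 < θ s) {s t : ℝ} (hs : 0 ≤ s)
    (hst : s < t) : θ (s ^ 2) * s < θ (t ^ 2) * t := by
  have ht : 0 < t := lt_of_le_of_lt hs hst
  have h2 : θ (s ^ 2) ≤ θ (t ^ 2) := hm (pow_le_pow_left₀ hs hst.le 2)
  have h3 : 0 < θ (t ^ 2) := hp _ (by positivity)
  calc θ (s ^ 2) * s ≤ θ (t ^ 2) * s := mul_le_mul_of_nonneg_right h2 hs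
    _ < θ (t ^ 2) * t := mul_lt_mul_of_pos_left hst h3

theorem rad_norm (hp : ∀ s, 0 < s → 0 < θ s) (v : E n) :
    ‖rad θ v‖ = θ (‖v‖ ^ 2) * ‖v‖ := by
  unfold rad
  rw [norm_smul, Real.norm_eq_abs]
  rcases eq_or_ne v 0 with h | h
  · rw [h]
    simp
  · rw [abs_of_pos (hp _ (by have := norm_pos_iff.2 h; positivity))]

theorem rad_bij (hc : Continuous θ) (hm : Monotone θ) (hp : ∀ s, 0 < s → 0 < θ s)
    (h1 : ∀ s, 1 ≤ s → θ s = 1) : Bijective (rad θ : E n → E n) := by
  constructor
  · intro v w hvw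
    have h2 : θ (‖v‖ ^ 2) * ‖v‖ = θ (‖w‖ ^ 2) * ‖w‖ := by
      rw [← rad_norm hp, ← rad_norm hp, hvw]
    have h3 : ‖v‖ = ‖w‖ := by
      rcases lt_trichotomy ‖v‖ ‖w‖ with h | h | h
      · exact absurd h2 (rho_lt hm hp (norm_nonneg _) h).ne
      · exact h
      · exact absurd h2 (rho_lt hm hp (norm_nonneg _) h).ne'
    rcases eq_or_ne w 0 with h | h
    · rw [h, norm_zero, norm_eq_zero] at h3
      rw [h3, h]
    · unfold rad at hvw
      rw [h3] at hvw
      exact smul_right_injective (E n)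
        (hp _ (by have := norm_pos_iff.2 h; positivity)).ne' hvw
  · intro w
    rcases eq_or_ne w 0 with h | h
    · refine ⟨0, ?_⟩
      unfold rad
      rw [h, smul_zero]
    · have hw : 0 < ‖w‖ := norm_pos_iff.2 h
      have hcr : Continuous fun s : ℝ => θ (s ^ 2) * s := by fun_prop
      have hle : (0 : ℝ) ≤ max 1 ‖w‖ := le_trans zero_le_one (le_max_left _ _)
      have h2 : ‖w‖ ∈ (fun s : ℝ => θ (s ^ 2) * s) '' Icc 0 (max 1 ‖w‖) := by
        refine intermediate_value_Icc hle hcr.continuousOn ⟨?_, ?_⟩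
        · simp
        · rw [h1 _ (one_le_pow₀ (le_max_left _ _)), one_mul]
          exact le_max_right _ _
      obtain ⟨s, ⟨hs0, -⟩, hs⟩ := h2
      simp only at hs
      refine ⟨(s / ‖w‖) • w, ?_⟩
      unfold rad
      have h3 : ‖(s / ‖w‖) • w‖ = s := by
        rw [norm_smul, Real.norm_eq_abs, abs_of_nonneg (by positivity)]
        field_simp
      rw [h3, smul_smul]
      have h4 : θ (s ^ 2) * (s / ‖w‖) = 1 := by
        rw [← mul_div_assoc, hs, div_self hw.ne']
      rw [h4, one_smul]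

theorem rad_closed (hc : Continuous θ) (h1 : ∀ s, 1 ≤ s → θ s = 1) :
    IsClosedMap (rad θ : E n → E n) := by
  have hcont : Continuous (rad θ : E n → E n) := by
    unfold rad
    fun_prop
  have hpr : IsProperMap (rad θ : E n → E n) := by
    rw [isProperMap_iff_tendsto_cocompact]
    refine ⟨hcont, ?_⟩
    have h2 : (rad θ : E n → E n) =ᶠ[cocompact (E n)] id := by
      have h3 : (closedBall (0 : E n) 1)ᶜ ∈ cocompact (E n) :=
        (isCompact_closedBall 0 1).compl_mem_cocompact
      filter_upwards [h3] with v hv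
      rw [mem_compl_iff, mem_closedBall_zero_iff, not_le] at hv
      exact rad_far h1 hv.le
    exact tendsto_id.congr' h2.symm
  exact hpr.isClosedMap

/-- the radial homeomorphism -/
theorem rad_homeo (hc : Continuous θ) (hm : Monotone θ) (hp : ∀ s, 0 < s → 0 < θ s)
    (h1 : ∀ s, 1 ≤ s → θ s = 1) : ∃ ψ : E n ≃ₜ E n, ∀ v, ψ v = rad θ v := by
  have hcont : Continuous (rad θ : E n → E n) := by
    unfold rad
    fun_prop
  exact ⟨(Equiv.ofBijective _ (rad_bij hc hm hp h1)).toHomeomorphOfContinuousClosed hcont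
    (rad_closed hc h1), fun v => rfl⟩

end radial

/-! ### The action on the manifold -/

section action

variable {n : ℕ} {N : Type} [TopologicalSpace N] [ChartedSpace (E n) N]

theorem act_near {h : E n → N} (hi : Injective h) (hh : ∀ z, LD n h z) (κ : E n → E n)
    (z : E n) : act h κ =ᶠ[𝓝 (h z)] fun y => h (κ (invFun h y)) := by
  have hg : ∀ w, invFun h (h w) = w := leftInverse_invFun hi
  have hopen : IsOpen (range h) := by
    rw [← image_univ]
    exact isOpen_image_of_LD isOpen_univ fun x _ => hh x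
  filter_upwards [hopen.mem_nhds (mem_range_self z)] with y hy
  obtain ⟨w, rfl⟩ := hy
  rw [act_range hi, hg]

theorem act_far [T2Space N] {h : E n → N} (hi : Injective h) (hh : ∀ z, LD n h z)
    {κ : E n → E n} {R : ℝ} (hR : ∀ z, R ≤ ‖z‖ → κ z = z) {x : N} (hx : x ∉ range h) :
    act h κ =ᶠ[𝓝 x] fun y => y := by
  have hcont : Continuous h := continuous_iff_continuousAt.2 fun z => (hh z).continuousAt
  have hC : IsClosed (h '' closedBall 0 (max R 0)) :=
    ((isCompact_closedBall 0 (max R 0)).image hcont).isClosed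
  have hxC : x ∈ (h '' closedBall 0 (max R 0))ᶜ := by
    rintro ⟨z, _, rfl⟩
    exact hx (mem_range_self z)
  filter_upwards [hC.isOpen_compl.mem_nhds hxC] with y hy
  by_cases hyr : y ∈ range h
  · obtain ⟨w, rfl⟩ := hyr
    rw [act_range hi, hR w]
    by_contra hw
    push Not at hw
    apply hy
    refine ⟨w, ?_, rfl⟩
    rw [mem_closedBall_zero_iff]
    exact hw.le.trans (le_max_left _ _)
  · exact act_off κ hyr

theorem inv_LD {h : E n → N} (hi : Injective h) (hh : ∀ z, LD n h z) (z : E n) :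
    LD n (invFun h) (h z) :=
  LD.inverse isOpen_univ (fun x _ => hh x) (fun x _ => leftInverse_invFun hi x) (mem_univ z)

theorem act_cont [T2Space N] {h : E n → N} (hi : Injective h) (hh : ∀ z, LD n h z)
    {κ : E n → E n} {R : ℝ} (hR : ∀ z, R ≤ ‖z‖ → κ z = z) (hκ : Continuous κ) :
    Continuous (act h κ) := by
  rw [continuous_iff_continuousAt]
  intro x
  by_cases hx : x ∈ range h
  · obtain ⟨z, rfl⟩ := hx
    refine ContinuousAt.congr ?_ (act_near hi hh κ z).symm
    have hg : invFun h (h z) = z := leftInverse_invFun hi z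
    have h1 : ContinuousAt (invFun h) (h z) := (inv_LD hi hh z).continuousAt
    have h2 : ContinuousAt (fun y => κ (invFun h y)) (h z) := hκ.continuousAt.comp h1
    exact ContinuousAt.comp (g := h) (hh _).continuousAt h2
  · exact ContinuousAt.congr continuousAt_id (act_far hi hh hR hx).symm

theorem act_smooth [T2Space N] {h : E n → N} (hi : Injective h) (hh : ∀ z, LD n h z)
    {κ : E n → E n} {R : ℝ} (hR : ∀ z, R ≤ ‖z‖ → κ z = z) (hκ : ContDiff ℝ ∞ κ) (x : N) :
    ContMDiffAt (𝓡 n) (𝓡 n) ∞ (act h κ) x := by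
  by_cases hx : x ∈ range h
  · obtain ⟨z, rfl⟩ := hx
    refine ContMDiffAt.congr_of_eventuallyEq ?_ (act_near hi hh κ z)
    have h1 : ContMDiffAt (𝓡 n) (𝓡 n) ∞ (invFun h) (h z) := (inv_LD hi hh z).contMDiffAt
    have h2 : ContMDiffAt (𝓡 n) (𝓡 n) ∞ (fun y => κ (invFun h y)) (h z) :=
      ContMDiffAt.comp (g := κ) (h z) hκ.contMDiff.contMDiffAt h1
    exact ContMDiffAt.comp (g := h) (h z) (hh _).contMDiffAt h2
  · exact ContMDiffAt.congr_of_eventuallyEq contMDiffAt_id (act_far hi hh hR hx)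

/-- the action of a homeomorphism of `E n` -/
theorem act_homeo [T2Space N] {h : E n → N} (hi : Injective h) (hh : ∀ z, LD n h z)
    (ψ : E n ≃ₜ E n) {R : ℝ} (hR : ∀ z, R ≤ ‖z‖ → ψ z = z) :
    ∃ Ψ : N ≃ₜ N, ∀ x, Ψ x = act h ψ x := by
  have hR' : ∀ z, R ≤ ‖z‖ → ψ.symm z = z := by
    intro z hz
    have h1 := hR z hz
    rw [Homeomorph.symm_apply_eq, h1]
  have hcomp : ∀ (κ κ' : E n → E n), (∀ z, κ' (κ z) = z) → ∀ x, act h κ' (act h κ x) = x := by
    intro κ κ' hkk x
    by_cases hx : x ∈ range h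
    · obtain ⟨z, rfl⟩ := hx
      rw [act_range hi, act_range hi, hkk]
    · rw [act_off κ hx, act_off κ' hx]
  exact ⟨{ toFun := act h ψ
           invFun := act h ψ.symm
           left_inv := hcomp _ _ fun z => ψ.symm_apply_apply z
           right_inv := hcomp _ _ fun z => ψ.apply_symm_apply z
           continuous_toFun := act_cont hi hh hR ψ.continuous
           continuous_invFun := act_cont hi hh hR' ψ.symm.continuous }, fun x => rfl⟩

end action

theorem main : S_FLT → S_FLM := by
  intro hF n M N _ _ _ _ _ _ _ G x₀ hG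
  obtain ⟨a, ai, ald, a0⟩ := exists_cell0 (n := n) x₀
  obtain ⟨h, hi, hld, h0⟩ := exists_cell0 (n := n) (G x₀)
  have hginv : ∀ w, invFun h (h w) = w := leftInverse_invFun hi
  have hainv : ∀ w, invFun a (a w) = w := leftInverse_invFun ai
  have hopen : IsOpen (range h) := by
    rw [← image_univ]
    exact isOpen_image_of_LD isOpen_univ fun x _ => hld x
  have haopen : IsOpen (range a) := by
    rw [← image_univ]
    exact isOpen_image_of_LD isOpen_univ fun x _ => ald x
  have hacont : Continuous a := continuous_iff_continuousAt.2 fun z => (ald z).continuousAt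
  obtain ⟨g, hg⟩ : ∃ g : E n → E n, g = fun z => invFun h (G (a z)) := ⟨_, rfl⟩
  obtain ⟨W, hW⟩ : ∃ W : Set (E n), W = {z | G (a z) ∈ range h} := ⟨_, rfl⟩
  have hGh : ∀ z ∈ W, h (g z) = G (a z) := by
    intro z hz
    rw [hW] at hz
    obtain ⟨w, hw⟩ := hz
    rw [hg]
    simp only
    rw [← hw, hginv]
  have hWo : IsOpen W := by
    rw [hW]
    exact hopen.preimage (G.continuous.comp hacont)
  have h0W : (0 : E n) ∈ W := by
    rw [hW]
    exact ⟨0, by rw [h0, a0]⟩
  have hg0 : g 0 = 0 := by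
    rw [hg]
    simp only
    rw [a0, ← h0, hginv]
  have hgc : ContinuousOn g W := by
    intro z hz
    apply ContinuousAt.continuousWithinAt
    have h1 := hGh z hz
    have h2 : ContinuousAt (invFun h) (G (a z)) := by
      rw [← h1]
      exact (inv_LD hi hld _).continuousAt
    rw [hg]
    exact ContinuousAt.comp (g := invFun h) (f := fun z => G (a z)) h2
      (G.continuous.comp hacont).continuousAt
  have hgs : ∀ x ∈ W, x ≠ 0 → ContDiffAt ℝ ∞ g x ∧ g x ≠ 0 := by
    intro z hz hz0
    have haz : a z ≠ x₀ := by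
      intro hcon
      rw [← a0] at hcon
      exact hz0 (ai hcon)
    refine ⟨?_, ?_⟩
    · have h1 : LD n (fun z => G (a z)) z := LD.comp_fun (g := G) (hG _ haz) (ald z)
      have h2 : LD n (invFun h) (G (a z)) := by
        rw [← hGh z hz]
        exact inv_LD hi hld _
      have h3 : LD n g z := by
        rw [hg]
        exact LD.comp_fun (g := invFun h) (f := fun z => G (a z)) h2 h1
      exact h3.contDiffAt
    · intro hcon
      have h1 := hGh z hz
      rw [hcon, h0] at h1
      exact haz (G.injective h1.symm)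
  obtain ⟨θ, hθ, hθm, hθp, hθ1, hθs⟩ := hF n g W 1 hWo h0W one_pos hgc hg0 hgs
  obtain ⟨ψ, hψ⟩ := rad_homeo (n := n) hθ.continuous hθm hθp hθ1
  have hψr : (ψ : E n → E n) = rad θ := funext hψ
  have hR : ∀ z : E n, 1 ≤ ‖z‖ → ψ z = z := fun z hz => by rw [hψ, rad_far hθ1 hz]
  obtain ⟨Ψ, hΨ⟩ := act_homeo hi hld ψ hR
  have hΨs : ∀ y, ContMDiffAt (𝓡 n) (𝓡 n) ∞ Ψ y := by
    intro y
    have h1 : (Ψ : N → N) = act h ψ := funext hΨ
    rw [h1]
    refine act_smooth hi hld hR ?_ y
    rw [hψr]
    exact rad_smooth hθ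
  refine ⟨G.trans Ψ, fun x => ?_⟩
  rcases eq_or_ne x x₀ with hx | hx
  · -- at the singular point
    have h1 : (G.trans Ψ : M → N) =ᶠ[𝓝 x] fun y => h (rad θ (g (invFun a y))) := by
      have h2 : range a ∈ 𝓝 x := haopen.mem_nhds ⟨0, by rw [a0, hx]⟩
      have h3 : G ⁻¹' (range h) ∈ 𝓝 x :=
        (hopen.preimage G.continuous).mem_nhds ⟨0, by rw [h0, hx]⟩
      filter_upwards [h2, h3] with y hy1 hy2
      obtain ⟨z, rfl⟩ := hy1
      have hzW : z ∈ W := by
        rw [hW]
        exact hy2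
      rw [Homeomorph.trans_apply, hΨ, ← hGh z hzW, act_range hi, hψ, hainv]
    refine ContMDiffAt.congr_of_eventuallyEq ?_ h1
    have h4 : ContMDiffAt (𝓡 n) (𝓡 n) ∞ (invFun a) x := by
      rw [hx, ← a0]
      exact (inv_LD ai ald 0).contMDiffAt
    have h5 : invFun a x = 0 := by
      rw [hx, ← a0, hainv]
    have h6 : ContMDiffAt (𝓡 n) (𝓡 n) ∞ (fun z => rad θ (g z)) (invFun a x) := by
      rw [h5]
      exact hθs.contMDiffAt
    have h7 : ContMDiffAt (𝓡 n) (𝓡 n) ∞ (fun y => rad θ (g (invFun a y))) x :=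
      ContMDiffAt.comp (g := fun z => rad θ (g z)) x h6 h4
    exact ContMDiffAt.comp (g := h) x (hld _).contMDiffAt h7
  · exact ContMDiffAt.comp (g := Ψ) (f := G) x (hΨs _) (hG x hx).contMDiffAt

end Pool.Agent.N550.TS.Flm
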