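import Pool.Agent.N550.TS.Stm2

/-!
# TS/FLT (helper374 for helper550): flattening at an isolated singular point, in coordinates
-/

set_option autoImplicit false

open Set Filter Topology Metric Function
open scoped ContDiff

noncomputable section

namespace Pool.Agent.N550.TS.Flt

open Pool.Agent.Y522

section

variable {V F : Type} [NormedAddCommGroup V] [NormedSpace ℝ V] [NormedAddCommGroup F]
  [NormedSpace ℝ F]

theorem bdd {f : V → F} (h : ContDiff ℝ ∞ f) (hc : HasCompactSupport f) (j : ℕ) :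
    ∃ B : ℝ, 0 ≤ B ∧ ∀ x, ‖iteratedFDeriv ℝ j f x‖ ≤ B := by
  have hj : ((j : ℕ∞) : WithTop ℕ∞) ≤ ∞ := by exact_mod_cast le_top
  obtain ⟨C, hC⟩ := (h.continuous_iteratedFDeriv (m := j) hj).bounded_above_of_compact_support
    (hc.iteratedFDeriv j)
  exact ⟨max C 0, le_max_right _ _, fun x => (hC x).trans (le_max_left _ _)⟩

theorem series [CompleteSpace F] (h : ℕ → V → F) (hs : ∀ k, ContDiff ℝ ∞ (h k))
    (hc : ∀ k, HasCompactSupport (h k)) :
    ∃ b : ℕ → ℝ, (∀ k, 0 < b k) ∧ ∀ c : ℕ → ℝ, (∀ k, 0 ≤ c k ∧ c k ≤ b k) →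
      ContDiff ℝ ∞ (fun x => ∑' k, c k • h k x) := by
  choose B hB0 hB using fun k j => bdd (hs k) (hc k) j
  have hpos : ∀ k, 0 < 1 + ∑ j ∈ Finset.range (k + 1), B k j := fun k => by
    have : 0 ≤ ∑ j ∈ Finset.range (k + 1), B k j := Finset.sum_nonneg fun j _ => hB0 k j
    linarith
  refine ⟨fun k => (1 / 2 : ℝ) ^ k / (1 + ∑ j ∈ Finset.range (k + 1), B k j), ?_, ?_⟩
  · intro k
    have := hpos k
    positivity
  · intro c hcb
    refine contDiff_tsum_of_eventually (N := ⊤) (v := fun _ k => (1 / 2 : ℝ) ^ k) ?_ ?_ ?_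
    · intro k
      exact (hs k).const_smul (c k)
    · intro j _
      exact summable_geometric_two
    · intro j _
      have hev : ∀ᶠ k in (Filter.cofinite : Filter ℕ), j ≤ k := by
        rw [Nat.cofinite_eq_atTop]
        exact eventually_ge_atTop j
      filter_upwards [hev] with k hk x
      have hj : ((j : ℕ∞) : WithTop ℕ∞) ≤ ∞ := by exact_mod_cast le_top
      have h1 : iteratedFDeriv ℝ j (fun x => c k • h k x) x = c k • iteratedFDeriv ℝ j (h k) x :=
        iteratedFDeriv_const_smul_apply ((hs k).contDiffAt.of_le hj)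
      rw [h1, norm_smul, Real.norm_of_nonneg (hcb k).1]
      have h2 : B k j ≤ 1 + ∑ j ∈ Finset.range (k + 1), B k j := by
        have h3 : B k j ≤ ∑ j ∈ Finset.range (k + 1), B k j :=
          Finset.single_le_sum (f := fun j => B k j) (fun j _ => hB0 k j)
            (Finset.mem_range.mpr (by omega))
        linarith
      have hp := hpos k
      calc c k * ‖iteratedFDeriv ℝ j (h k) x‖
          ≤ ((1 / 2 : ℝ) ^ k / (1 + ∑ j ∈ Finset.range (k + 1), B k j))
            * (1 + ∑ j ∈ Finset.range (k + 1), B k j) :=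
            mul_le_mul (hcb k).2 ((hB k j x).trans h2) (norm_nonneg _) (by positivity)
        _ = (1 / 2 : ℝ) ^ k := div_mul_cancel₀ _ hp.ne'

end

theorem cdc {f g : ℝ → ℝ} (h : ContDiff ℝ ∞ f) (e : ∀ x, g x = f x) : ContDiff ℝ ∞ g := by
  rw [funext e]
  exact h

/-- the steps -/
def sg (k : ℕ) (s : ℝ) : ℝ := Real.smoothTransition (2 ^ (k + 1) * s - 1)

theorem sg_smooth (k : ℕ) : ContDiff ℝ ∞ (sg k) :=
  Real.smoothTransition.contDiff.comp ((contDiff_const.mul contDiff_id).sub contDiff_const)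

theorem sg_zero (k : ℕ) (s : ℝ) (h : s ≤ (1 / 2) ^ (k + 1)) : sg k s = 0 := by
  apply Real.smoothTransition.zero_of_nonpos
  have h1 : (2 : ℝ) ^ (k + 1) * s ≤ 2 ^ (k + 1) * (1 / 2) ^ (k + 1) :=
    mul_le_mul_of_nonneg_left h (by positivity)
  rw [← mul_pow] at h1
  norm_num at h1
  linarith

theorem sg_one (k : ℕ) (s : ℝ) (h : (1 / 2) ^ k ≤ s) : sg k s = 1 := by
  apply Real.smoothTransition.one_of_one_le
  have h1 : (2 : ℝ) ^ (k + 1) * (1 / 2) ^ k ≤ 2 ^ (k + 1) * s :=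
    mul_le_mul_of_nonneg_left h (by positivity)
  have h2 : (2 : ℝ) ^ (k + 1) * (1 / 2) ^ k = 2 := by
    rw [pow_succ, mul_right_comm, ← mul_pow]
    norm_num
  linarith

theorem sg_mono (k : ℕ) : Monotone (sg k) := by
  intro s t hst
  apply Real.smoothTransition.monotone
  have : (2 : ℝ) ^ (k + 1) * s ≤ 2 ^ (k + 1) * t := mul_le_mul_of_nonneg_left hst (by positivity)
  linarith

theorem sg_nonneg (k : ℕ) (s : ℝ) : 0 ≤ sg k s := Real.smoothTransition.nonneg _

theorem sg_le (k : ℕ) (s : ℝ) : sg k s ≤ 1 := Real.smoothTransition.le_one _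

theorem main : S_FLT := by
  intro n g W δ hW h0W hδ hg hg0 hgs
  obtain ⟨r, hr, hrW⟩ : ∃ r > 0, closedBall (0 : E n) r ⊆ W :=
    Metric.nhds_basis_closedBall.mem_iff.1 (hW.mem_nhds h0W)
  have hgc : ContinuousAt g 0 := hg.continuousAt (hW.mem_nhds h0W)
  let η : ContDiffBump (0 : E n) := ⟨r / 2, r, by positivity, by linarith⟩
  have hη0 : ∀ x, x ∉ closedBall (0 : E n) r → η x = 0 := by
    intro x hx
    apply η.zero_of_le_dist
    rw [mem_closedBall] at hx
    exact (not_le.mp hx).le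
  have hn0 : Tendsto (fun x => ‖g x‖ ^ 2) (𝓝 0) (𝓝 0) := by
    have h1 : ContinuousAt (fun x => ‖g x‖ ^ 2) 0 := (hgc.norm).pow 2
    have h2 := h1.tendsto
    simpa [hg0] using h2
  -- the functions f k
  obtain ⟨f, hf⟩ : ∃ f : ℕ → E n → E n, ∀ k x, f k x = η x • (sg k (‖g x‖ ^ 2) • g x) :=
    ⟨_, fun _ _ => rfl⟩
  have hfs : ∀ k, ContDiff ℝ ∞ (f k) := by
    intro k
    rw [contDiff_iff_contDiffAt]
    intro x
    by_cases hxr : x ∈ closedBall (0 : E n) r
    · by_cases hx0 : x = 0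
      · subst hx0
        have hev : f k =ᶠ[𝓝 0] fun _ => 0 := by
          have h1 : ∀ᶠ x in 𝓝 (0 : E n), ‖g x‖ ^ 2 < (1 / 2) ^ (k + 1) :=
            hn0.eventually (gt_mem_nhds (by positivity))
          filter_upwards [h1] with x hx
          rw [hf, sg_zero k _ hx.le, zero_smul, smul_zero]
        exact contDiffAt_const.congr_of_eventuallyEq hev
      · have h1 := (hgs x (hrW hxr) hx0).1
        have h2 : ContDiffAt ℝ ∞ (fun x => ‖g x‖ ^ 2) x := h1.norm_sq ℝ
        have h3 : ContDiffAt ℝ ∞ (fun x => sg k (‖g x‖ ^ 2)) x :=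
          (sg_smooth k).contDiffAt.comp x h2
        have h4 : ContDiffAt ℝ ∞ (fun x => η x) x := η.contDiffAt
        have h5 := h4.smul (h3.smul h1)
        refine h5.congr_of_eventuallyEq (Filter.Eventually.of_forall fun y => ?_)
        rw [hf]
        rfl
    · have hev : f k =ᶠ[𝓝 x] fun _ => 0 := by
        have h1 : ∀ᶠ y in 𝓝 x, y ∈ (closedBall (0 : E n) r)ᶜ :=
          isClosed_closedBall.isOpen_compl.mem_nhds hxr
        filter_upwards [h1] with y hy
        rw [hf, hη0 y hy, zero_smul]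
      exact contDiffAt_const.congr_of_eventuallyEq hev
  have hfc : ∀ k, HasCompactSupport (f k) := fun k =>
    HasCompactSupport.intro (isCompact_closedBall (0 : E n) r) fun x hx => by
      rw [hf, hη0 x hx, zero_smul]
  -- the functions on the line
  obtain ⟨ρ, hρ⟩ : ∃ ρ : ℝ → ℝ, ∀ s, ρ s = (1 - Real.smoothTransition ((s - δ) / δ)) := ⟨_, fun _ => rfl⟩
  have hρs : ContDiff ℝ ∞ ρ := by
    have h1 : ContDiff ℝ ∞ (fun s : ℝ => 1 - Real.smoothTransition ((s - δ) / δ)) :=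
      contDiff_const.sub
        (Real.smoothTransition.contDiff.comp ((contDiff_id.sub contDiff_const).div_const _))
    exact cdc h1 hρ
  have hρ1 : ∀ s, s ≤ δ → ρ s = 1 := by
    intro s hs
    rw [hρ, Real.smoothTransition.zero_of_nonpos, sub_zero]
    exact div_nonpos_of_nonpos_of_nonneg (by linarith) hδ.le
  have hρ0 : ∀ s, 2 * δ ≤ s → ρ s = 0 := by
    intro s hs
    rw [hρ, Real.smoothTransition.one_of_one_le, sub_self]
    rw [le_div_iff₀ hδ]
    linarith
  obtain ⟨h, hh⟩ : ∃ h : ℕ → ℝ → ℝ, ∀ k s, h k s = sg k s * ρ s := ⟨_, fun _ _ => rfl⟩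
  have hhs : ∀ k, ContDiff ℝ ∞ (h k) := fun k => cdc ((sg_smooth k).mul hρs) (hh k)
  have hhc : ∀ k, HasCompactSupport (h k) := fun k =>
    HasCompactSupport.intro (isCompact_Icc (a := (0 : ℝ)) (b := 2 * δ)) fun s hs => by
      rw [hh]
      by_cases h1 : 0 ≤ s
      · have h2 : 2 * δ ≤ s := by
          by_contra h3
          exact hs ⟨h1, (not_le.mp h3).le⟩
        rw [hρ0 s h2, mul_zero]
      · rw [sg_zero k s (le_trans (not_le.mp h1).le (by positivity)), zero_mul]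
  obtain ⟨b1, hb1, hb1'⟩ := series f hfs hfc
  obtain ⟨b2, hb2, hb2'⟩ := series h hhs hhc
  obtain ⟨c, hc⟩ : ∃ c : ℕ → ℝ, ∀ k, c k = min (1 / 2 / 2 ^ k) (min (b1 k) (b2 k)) :=
    ⟨_, fun _ => rfl⟩
  have hc0 : ∀ k, 0 < c k := fun k => by
    rw [hc]
    exact lt_min (by positivity) (lt_min (hb1 k) (hb2 k))
  have hc1 : ∀ k, c k ≤ 1 / 2 / 2 ^ k := fun k => by rw [hc]; exact min_le_left _ _
  have hF := hb1' c (fun k => ⟨(hc0 k).le, by
    rw [hc]; exact (min_le_right _ _).trans (min_le_left _ _)⟩)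
  have hH := hb2' c (fun k => ⟨(hc0 k).le, by
    rw [hc]; exact (min_le_right _ _).trans (min_le_right _ _)⟩)
  -- theta0
  obtain ⟨θ0, hθ0⟩ : ∃ θ0 : ℝ → ℝ, ∀ s, θ0 s = ∑' k, c k * sg k s := ⟨_, fun _ => rfl⟩
  have hsum : ∀ s, Summable (fun k => c k * sg k s) := by
    intro s
    refine Summable.of_nonneg_of_le (fun k => mul_nonneg (hc0 k).le (sg_nonneg k s)) (fun k => ?_)
      (summable_geometric_two' 1)
    have h1 : c k * sg k s ≤ c k * 1 := mul_le_mul_of_nonneg_left (sg_le k s) (hc0 k).le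
    have h2 := hc1 k
    linarith
  have hθ00 : ∀ s, 0 ≤ θ0 s := fun s => by
    rw [hθ0]
    exact tsum_nonneg fun k => mul_nonneg (hc0 k).le (sg_nonneg k s)
  have hθ01 : ∀ s, θ0 s ≤ 1 := fun s => by
    rw [hθ0, ← tsum_geometric_two' 1]
    refine (hsum s).tsum_le_tsum (fun k => ?_) (summable_geometric_two' 1)
    have h1 : c k * sg k s ≤ c k * 1 := mul_le_mul_of_nonneg_left (sg_le k s) (hc0 k).le
    have h2 := hc1 k
    linarith
  have hθ0m : Monotone θ0 := by
    intro s t hst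
    rw [hθ0, hθ0]
    exact (hsum s).tsum_le_tsum (fun k => mul_le_mul_of_nonneg_left (sg_mono k hst) (hc0 k).le)
      (hsum t)
  have hθ0p : ∀ s, 0 < s → 0 < θ0 s := by
    intro s hs
    obtain ⟨k, hk⟩ := exists_pow_lt_of_lt_one hs (by norm_num : (1 / 2 : ℝ) < 1)
    have h1 : c k * sg k s ≤ θ0 s := by
      rw [hθ0]
      exact (hsum s).le_tsum k fun j _ => mul_nonneg (hc0 j).le (sg_nonneg j s)
    rw [sg_one k s hk.le, mul_one] at h1
    exact lt_of_lt_of_le (hc0 k) h1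
  -- theta1
  obtain ⟨θ1, hθ1⟩ : ∃ θ1 : ℝ → ℝ, ∀ s, θ1 s = ∑' k, c k • h k s := ⟨_, fun _ => rfl⟩
  have hθ1s : ContDiff ℝ ∞ θ1 := cdc hH hθ1
  have hθ10 : ∀ s, s ≤ δ → θ1 s = θ0 s := by
    intro s hs
    rw [hθ1, hθ0]
    refine tsum_congr fun k => ?_
    rw [hh, hρ1 s hs, mul_one, smul_eq_mul]
  obtain ⟨χ, hχ⟩ : ∃ χ : ℝ → ℝ, ∀ s, χ s = Real.smoothTransition ((s - δ / 2) / (δ / 2)) :=
    ⟨_, fun _ => rfl⟩
  have hχs : ContDiff ℝ ∞ χ := by
    have h1 : ContDiff ℝ ∞ (fun s : ℝ => Real.smoothTransition ((s - δ / 2) / (δ / 2))) :=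
      Real.smoothTransition.contDiff.comp ((contDiff_id.sub contDiff_const).div_const _)
    exact cdc h1 hχ
  have hχ0 : ∀ s, s ≤ δ / 2 → χ s = 0 := by
    intro s hs
    rw [hχ, Real.smoothTransition.zero_of_nonpos]
    exact div_nonpos_of_nonpos_of_nonneg (by linarith) (by linarith)
  have hχ1 : ∀ s, δ ≤ s → χ s = 1 := by
    intro s hs
    rw [hχ, Real.smoothTransition.one_of_one_le]
    rw [le_div_iff₀ (by linarith)]
    linarith
  have hχm : Monotone χ := by
    intro s t hst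
    rw [hχ, hχ]
    apply Real.smoothTransition.monotone
    exact div_le_div_of_nonneg_right (by linarith) (by linarith)
  have hχn : ∀ s, 0 ≤ χ s := fun s => by rw [hχ]; exact Real.smoothTransition.nonneg _
  have hχl : ∀ s, χ s ≤ 1 := fun s => by rw [hχ]; exact Real.smoothTransition.le_one _
  obtain ⟨θ, hθ⟩ : ∃ θ : ℝ → ℝ, ∀ s, θ s = θ1 s * (1 - χ s) + χ s := ⟨_, fun _ => rfl⟩
  have hθs : ContDiff ℝ ∞ θ := cdc ((hθ1s.mul (contDiff_const.sub hχs)).add hχs) hθ
  have hθ_one : ∀ s, δ ≤ s → θ s = 1 := by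
    intro s hs
    rw [hθ, hχ1 s hs]
    ring
  have hθ_small : ∀ s, s ≤ δ → 1 - θ s = (1 - θ0 s) * (1 - χ s) := by
    intro s hs
    rw [hθ, hθ10 s hs]
    ring
  have hθ_le : ∀ s, θ s ≤ 1 := by
    intro s
    rcases le_total s δ with hs | hs
    · have h1 := hθ_small s hs
      have h2 : 0 ≤ (1 - θ0 s) * (1 - χ s) :=
        mul_nonneg (by linarith [hθ01 s]) (by linarith [hχl s])
      linarith
    · exact (hθ_one s hs).le
  refine ⟨θ, hθs, ?_, ?_, hθ_one, ?_⟩
  · intro s t hst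
    rcases le_total t δ with ht | ht
    · have h1 := hθ_small s (hst.trans ht)
      have h2 := hθ_small t ht
      have h3 : (1 - θ0 t) * (1 - χ t) ≤ (1 - θ0 s) * (1 - χ s) :=
        mul_le_mul (by linarith [hθ0m hst]) (by linarith [hχm hst]) (by linarith [hχl t])
          (by linarith [hθ01 s])
      linarith
    · rw [hθ_one t ht]
      exact hθ_le s
  · intro s hs
    rcases le_total s δ with hs' | hs'
    · have h1 := hθ_small s hs'
      have h2 : (1 - θ0 s) * (1 - χ s) ≤ (1 - θ0 s) * 1 :=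
        mul_le_mul_of_nonneg_left (by linarith [hχn s]) (by linarith [hθ01 s])
      have h3 := hθ0p s hs
      linarith
    · rw [hθ_one s hs']
      exact one_pos
  · have hev : (fun x => θ (‖g x‖ ^ 2) • g x) =ᶠ[𝓝 0] fun x => ∑' k, c k • f k x := by
      have h1 : ∀ᶠ x in 𝓝 (0 : E n), ‖g x‖ ^ 2 < δ / 2 :=
        hn0.eventually (gt_mem_nhds (by positivity))
      filter_upwards [h1, η.eventuallyEq_one] with x hx hx1
      have hx2 : η x = 1 := hx1
      have h2 : θ (‖g x‖ ^ 2) = θ0 (‖g x‖ ^ 2) := by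
        rw [hθ, hχ0 _ hx.le, hθ10 _ (by linarith)]
        ring
      rw [h2, hθ0, ← (hsum _).tsum_smul_const]
      refine tsum_congr fun k => ?_
      rw [hf, hx2, one_smul, mul_smul]
    exact hF.contDiffAt.congr_of_eventuallyEq hev

end Pool.Agent.N550.TS.Flt
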