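import Pool.Agent.N550.KH.Stm

/-!
# Project TS: statements, second part

Homeomorphisms which are local diffeomorphisms off one point can be made smooth.
-/

set_option autoImplicit false

open Set Filter Topology Metric Function MeasureTheory
open scoped Manifold ContDiff

noncomputable section

namespace Pool.Agent.N550.TS

open Pool.Agent.Y522 Pool.Agent.N550.KH

/-- Flattening at an isolated singular point, in coordinates. -/
def S_FLT : Prop :=
  ∀ (n : ℕ) (g : E n → E n) (W : Set (E n)) (δ : ℝ), IsOpen W → (0 : E n) ∈ W → 0 < δ →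
    ContinuousOn g W → g 0 = 0 → (∀ x ∈ W, x ≠ 0 → ContDiffAt ℝ ∞ g x ∧ g x ≠ 0) →
    ∃ θ : ℝ → ℝ, ContDiff ℝ ∞ θ ∧ Monotone θ ∧ (∀ s, 0 < s → 0 < θ s) ∧
      (∀ s, δ ≤ s → θ s = 1) ∧ ContDiffAt ℝ ∞ (fun x => θ (‖g x‖ ^ 2) • g x) 0

/-- Flattening at an isolated singular point. -/
def S_FLM : Prop :=
  ∀ (n : ℕ) (M N : Type) [TopologicalSpace M] [ChartedSpace (E n) M] [IsManifold (𝓡 n) ∞ M]
    [TopologicalSpace N] [T2Space N] [ChartedSpace (E n) N] [IsManifold (𝓡 n) ∞ N]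
    (G : M ≃ₜ N) (x₀ : M), (∀ x, x ≠ x₀ → LD n G x) →
    ∃ f : M ≃ₜ N, ContMDiff (𝓡 n) (𝓡 n) ∞ f

end Pool.Agent.N550.TS
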