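import Pool.Agent.N550.TS.Stm
import Pool.Agent.N550.KH.Fin

/-!
# Project TS: the proof of the theorem from the steps (helper395)

Adaptation of `Pool/Agent/N550/KH/Fin.lean`.
-/

set_option autoImplicit false

open Set Filter Topology Metric Function MeasureTheory
open scoped Manifold ContDiff

noncomputable section

namespace Pool.Agent.N550.TS.Fin2

open Pool.Agent.Y522 Pool.Agent.N550.KH Pool.Agent.N550.KH.Fin'

/-- composition with a diffeomorphism keeps the null condition -/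
theorem nullH_trans {n : ℕ} {M N P : Type} [TopologicalSpace M] [ChartedSpace (E n) M]
    [TopologicalSpace N] [ChartedSpace (E n) N] [TopologicalSpace P] [ChartedSpace (E n) P]
    (f : M ≃ₜ N) (K : N ≃ₜ P) (hl : ∀ x, LD n K x) (hs : ∀ y, LD n K.symm y)
    (h : NullH n (f '' Bad n f)) : NullH n ((f.trans K) '' Bad n (f.trans K)) := by
  refine nullH_mono ?_ (nullH_image K hs h)
  rintro _ ⟨x, hx, rfl⟩
  exact ⟨f x, ⟨x, bad_comp f K hl hx, rfl⟩, rfl⟩

/-- an open cell is not a compact manifold -/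
theorem range_ne_univ {N : Type} [TopologicalSpace N] [CompactSpace N] [ChartedSpace (E 4) N]
    (c : E 4 → N) (hi : Injective c) (hl : ∀ z, LD 4 c z) : range c ≠ univ := by
  intro h
  obtain ⟨K, -, -, -⟩ := exists_homeo (n := 4) (κ := c) ⟨⟨hi, range_eq_univ.1 h⟩, hl⟩
  have h1 : CompactSpace (E 4) := K.symm.compactSpace
  exact not_compactSpace_iff.2 (inferInstance : NoncompactSpace (E 4)) h1

theorem main : S_NULL → S_ZERO → S_ONE → S_TWO2 → S_CELL → S_ASM → S_FIN2 := by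
  intro hNULL hZERO hONE hTWO hCELL hASM
  intro M N _ _ _ _ _ _ _ _ _ _ a d b l K h c H f hf
  have hf0 : NullH 4 (f '' Bad 4 f) := hNULL 4 N _ hf
  obtain ⟨f1, hn1, hl1⟩ := hZERO 4 M N f b (by norm_num) hf0 H.b_inj H.b_ld
  -- the 1-handles
  have step : ∀ j : ℕ, j ≤ a → ∃ f2 : M ≃ₜ N, NullH 4 (f2 '' Bad 4 f2) ∧
      ∀ x, f2 x ∈ b '' closedBall 0 1 ∪ (⋃ (i : Fin a) (_ : (i : ℕ) < j),
        l i '' {z | vp 1 3 z = 0 ∧ ‖up 1 3 z‖ ≤ 1}) → LD 4 f2 x := by
    intro j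
    induction j with
    | zero =>
      intro _
      refine ⟨f1, hn1, fun x hx => ?_⟩
      rcases hx with ⟨z, hz, hzx⟩ | hx
      · exact hl1 x z hzx.symm (by simpa using hz)
      · simp at hx
    | succ j ih =>
      intro hj
      obtain ⟨f2, hn2, hl2⟩ := ih (by omega)
      obtain ⟨f3, hn3, hl3⟩ := hONE 3 M N f2 (l ⟨j, by omega⟩) _ (by norm_num) hn2
        (H.l_inj _) (H.l_ld _) (fun z => by
          rw [← H.l_att ⟨j, by omega⟩ z]
          constructor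
          · rintro (hz | hz)
            · exact hz
            · obtain ⟨i, hi, w, -, hw⟩ := mem_iUnion₂.1 hz
              refine absurd hw.symm (H.l_dis _ _ z w ?_)
              intro hcon
              rw [← hcon] at hi
              exact absurd hi (by simp)
          · exact fun hz => Or.inl hz) hl2
      refine ⟨f3, hn3, fun x hx => hl3 x ?_⟩
      rcases hx with hx | hx
      · exact Or.inl (Or.inl hx)
      · obtain ⟨i, hi, w, hw, hwx⟩ := mem_iUnion₂.1 hx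
        rcases Nat.lt_succ_iff_lt_or_eq.1 hi with h1 | h1
        · exact Or.inl (Or.inr (mem_iUnion₂.2 ⟨i, h1, w, hw, hwx⟩))
        · refine Or.inr ⟨w, hw, ?_⟩
          have : i = ⟨j, by omega⟩ := Fin.ext h1
          rw [← this]
          exact hwx
  obtain ⟨f2, hn2, hl2⟩ := step a le_rfl
  have hl2' : ∀ x, f2 x ∈ b '' closedBall 0 1 ∪
      (⋃ i, l i '' {z | vp 1 3 z = 0 ∧ ‖up 1 3 z‖ ≤ 1}) → LD 4 f2 x := by
    intro x hx
    refine hl2 x ?_
    rcases hx with hx | hx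
    · exact Or.inl hx
    · obtain ⟨i, hi⟩ := mem_iUnion.1 hx
      exact Or.inr (mem_iUnion₂.2 ⟨i, i.2, hi⟩)
  -- the compression
  have hO : IsOpen {y | LD 4 f2 (f2.symm y)} := (isOpen_ld (n := 4) f2).preimage f2.symm.continuous
  obtain ⟨κ, hκ, hKκ⟩ := H.K_cmp _ hO (fun y hy => by
    show LD 4 f2 (f2.symm y)
    exact hl2' _ (by rw [f2.apply_symm_apply]; exact hy))
  obtain ⟨κ', hκ', hκl, hκs⟩ := exists_homeo hκ
  set f3 : M ≃ₜ N := f2.trans κ' with hf3
  have hf3x : ∀ x, f3 x = κ' (f2 x) := fun _ => rfl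
  have hn3 : NullH 4 (f3 '' Bad 4 f3) := by
    refine nullH_mono ?_ (nullH_image κ' hκs hn2)
    rintro _ ⟨x, hx, rfl⟩
    exact ⟨f2 x, ⟨x, bad_comp f2 κ' hκl hx, rfl⟩, rfl⟩
  have hl3 : ∀ x, f3 x ∈ K → LD 4 f3 x := by
    intro x hx
    obtain ⟨y, hy, hyx⟩ := hKκ hx
    rw [hf3x, ← hκ'] at hyx
    have h1 : y = f2 x := κ'.injective hyx
    have h2 : LD 4 f2 (f2.symm y) := hy
    rw [h1, f2.symm_apply_apply] at h2
    exact (hκl (f2 x)).comp_fun h2
  obtain ⟨f4, hn4, hl4⟩ := hTWO 2 d M N f3 h K (by norm_num) hn3 H.h_inj H.h_ld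
    H.h_att H.h_dis hl3 H.K_cpt.isClosed
  -- the second compression
  have hO4 : IsOpen {y | LD 4 f4 (f4.symm y)} :=
    (isOpen_ld (n := 4) f4).preimage f4.symm.continuous
  obtain ⟨κ₂, hκ₂, hcκ⟩ := H.c_cmp _ hO4 (fun y hy => by
    show LD 4 f4 (f4.symm y)
    exact hl4 _ (by rw [f4.apply_symm_apply]; exact hy))
  obtain ⟨κ₃, hκ₃, hκ₃l, hκ₃s⟩ := exists_homeo hκ₂
  have hn5 : NullH 4 ((f4.trans κ₃) '' Bad 4 (f4.trans κ₃)) := nullH_trans f4 κ₃ hκ₃l hκ₃s hn4
  have hl5 : ∀ x, (f4.trans κ₃) x ∈ (range c)ᶜ → LD 4 (f4.trans κ₃) x := by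
    intro x hx
    obtain ⟨y, hy, hyx⟩ := hcκ hx
    have hx5 : (f4.trans κ₃) x = κ₃ (f4 x) := rfl
    rw [hx5, ← hκ₃] at hyx
    have h1 : y = f4 x := κ₃.injective hyx
    have h2 : LD 4 f4 (f4.symm y) := hy
    rw [h1, f4.symm_apply_apply] at h2
    exact (hκ₃l (f4 x)).comp_fun h2
  obtain ⟨c', hci, hcl, hcr⟩ := hCELL 4 M N (f4.trans κ₃) c hn5 H.c_inj H.c_ld
  refine hASM 4 M N ((f4.trans κ₃) ⁻¹' (range c)ᶜ) (range c)ᶜ c' c (f4.trans κ₃) (by norm_num) ?_
    hci hcl ?_ H.c_inj H.c_ld (compl_compl _).symm hl5 (f4.trans κ₃).injective.injOn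
    (image_preimage_eq _ (f4.trans κ₃).surjective)
  · have hne : ((range c)ᶜ).Nonempty := by
      rw [nonempty_compl]
      exact range_ne_univ c H.c_inj H.c_ld
    obtain ⟨y, hy⟩ := hne
    refine ⟨(f4.trans κ₃).symm y, ?_⟩
    show (f4.trans κ₃) ((f4.trans κ₃).symm y) ∈ (range c)ᶜ
    rw [(f4.trans κ₃).apply_symm_apply]
    exact hy
  · rw [hcr, preimage_compl, compl_compl]

end Pool.Agent.N550.TS.Fin2
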