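import Pool.Agent.N550.TS.Stm

/-!
# PROJECT TS, part FLAT (helper526): the flattened rescaling is smooth
-/

set_option autoImplicit false

open Set Filter Topology Metric Function
open scoped ContDiff

noncomputable section

namespace Pool.Agent.N550.TS.Flat

open Pool.Agent.Y522 Pool.Agent.N550.KH Pool.Agent.N550.TS

variable {V W : Type} [NormedAddCommGroup V] [NormedSpace ℝ V] [FiniteDimensional ℝ V]
  [NormedAddCommGroup W] [NormedSpace ℝ W] [FiniteDimensional ℝ W]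

/-- the scalar factor -/
def sc (N : ℕ) (s : ℝ) : ℝ := s⁻¹ ^ N * expNegInvGlue s

theorem sc_zero (N : ℕ) : sc N 0 = 0 := by
  simp [sc]

theorem sc_hasDerivAt (N : ℕ) (s : ℝ) :
    HasDerivAt (sc N) (sc (N + 2) s - N * sc (N + 1) s) s := by
  have h := expNegInvGlue.hasDerivAt_polynomial_eval_inv_mul (Polynomial.X ^ N) s
  have e1 : (fun x : ℝ => Polynomial.eval x⁻¹ (Polynomial.X ^ N : Polynomial ℝ) *
      expNegInvGlue x) = sc N := by
    ext x
    simp [sc]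
  rw [e1] at h
  refine h.congr_deriv ?_
  rcases N with _ | N
  · simp [sc]
  · simp only [sc, Polynomial.eval_mul, Polynomial.eval_pow, Polynomial.eval_X,
      Polynomial.eval_sub, Polynomial.derivative_X_pow, Polynomial.eval_C,
      Nat.add_sub_cancel, Polynomial.eval_natCast]
    push_cast
    ring

theorem sc_small (N : ℕ) : ∀ᶠ s in 𝓝 (0 : ℝ), |sc N s| ≤ s ^ 2 := by
  have h := expNegInvGlue.tendsto_polynomial_inv_mul_zero (Polynomial.X ^ (N + 2))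
  have h1 : ∀ᶠ s in 𝓝 (0 : ℝ), |sc (N + 2) s| < 1 := by
    have e1 : (fun x : ℝ => Polynomial.eval x⁻¹ (Polynomial.X ^ (N + 2) : Polynomial ℝ) *
        expNegInvGlue x) = sc (N + 2) := by
      ext x
      simp [sc]
    rw [e1] at h
    have h2 := h.abs
    rw [abs_zero] at h2
    exact h2.eventually (gt_mem_nhds one_pos)
  filter_upwards [h1] with s hs
  by_cases h0 : s = 0
  · subst h0
    rw [sc_zero, abs_zero]
    positivity
  · have e2 : sc N s = sc (N + 2) s * s ^ 2 := by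
      have e3 : s⁻¹ ^ 2 * s ^ 2 = 1 := by
        rw [← mul_pow, inv_mul_cancel₀ h0, one_pow]
      unfold sc
      rw [pow_add]
      calc s⁻¹ ^ N * expNegInvGlue s = s⁻¹ ^ N * expNegInvGlue s * (s⁻¹ ^ 2 * s ^ 2) := by
            rw [e3, mul_one]
        _ = _ := by ring
    rw [e2, abs_mul, abs_of_nonneg (sq_nonneg s)]
    nlinarith [sq_nonneg s, abs_nonneg (sc (N + 2) s)]

/-- the rescaled function -/
def Ph {G : Type} [NormedAddCommGroup G] [NormedSpace ℝ G] (N : ℕ) (g : V × W → G)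
    (p : V × ℝ × W) : G :=
  sc N p.2.1 • g (p.2.1⁻¹ • p.1, p.2.2)

theorem Ph_zero {G : Type} [NormedAddCommGroup G] [NormedSpace ℝ G] (N : ℕ) (g : V × W → G)
    (y : V) (w : W) : Ph N g (y, 0, w) = 0 := by
  simp [Ph, sc_zero]

/-- local bound -/
theorem bound {G : Type} [NormedAddCommGroup G] [NormedSpace ℝ G] (g : V × W → G)
    (hg : Continuous g) (ρ : ℝ) (h0 : ∀ x w, ρ ≤ ‖x‖ → g (x, w) = 0) (w₀ : W) :
    ∃ B : ℝ, 0 ≤ B ∧ ∀ x, ∀ w ∈ closedBall w₀ 1, ‖g (x, w)‖ ≤ B := by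
  have hV : ProperSpace V := FiniteDimensional.proper ℝ V
  have hW : ProperSpace W := FiniteDimensional.proper ℝ W
  have hc : IsCompact (closedBall (0 : V) ρ ×ˢ closedBall w₀ 1) :=
    (isCompact_closedBall _ _).prod (isCompact_closedBall _ _)
  obtain ⟨B, hB⟩ := hc.exists_bound_of_continuousOn hg.continuousOn
  refine ⟨max B 0, le_max_right _ _, fun x w hw => ?_⟩
  by_cases hx : ρ ≤ ‖x‖
  · rw [h0 x w hx, norm_zero]
    exact le_max_right _ _
  · refine (hB (x, w) ⟨?_, hw⟩).trans (le_max_left _ _)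
    rw [mem_closedBall_zero_iff]
    exact (not_le.1 hx).le

/-- the derivative -/
def Dr {G : Type} [NormedAddCommGroup G] [NormedSpace ℝ G] (N : ℕ) (g : V × W → G)
    (p : V × ℝ × W) : V × ℝ × W →L[ℝ] G :=
  (Ph (N + 1) (fderiv ℝ g) p).comp
      ((ContinuousLinearMap.inl ℝ V W).comp (ContinuousLinearMap.fst ℝ V (ℝ × W))) +
    (Ph N (fderiv ℝ g) p).comp
      ((ContinuousLinearMap.inr ℝ V W).comp
        ((ContinuousLinearMap.snd ℝ ℝ W).comp (ContinuousLinearMap.snd ℝ V (ℝ × W)))) +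
    ((ContinuousLinearMap.fst ℝ ℝ W).comp (ContinuousLinearMap.snd ℝ V (ℝ × W))).smulRight
      (Ph (N + 2) g p - (N : ℝ) • Ph (N + 1) g p -
        Ph (N + 1) (fun q : V × W => fderiv ℝ g q (q.1, 0)) p)

theorem hasF_zero {G : Type} [NormedAddCommGroup G] [NormedSpace ℝ G] (N : ℕ) (g : V × W → G)
    (hg : Continuous g) (ρ : ℝ) (h0 : ∀ x w, ρ ≤ ‖x‖ → g (x, w) = 0) (y : V) (w : W) :
    HasFDerivAt (Ph N g) (0 : V × ℝ × W →L[ℝ] G) (y, 0, w) := by
  obtain ⟨B, hB0, hB⟩ := bound g hg ρ h0 w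
  rw [hasFDerivAt_iff_isLittleO_nhds_zero]
  have hO : (fun h : V × ℝ × W => Ph N g ((y, 0, w) + h) - Ph N g (y, 0, w) -
      (0 : V × ℝ × W →L[ℝ] G) h) =O[𝓝 0] (fun h : V × ℝ × W => ‖h‖ ^ 2) := by
    refine Asymptotics.IsBigO.of_bound B ?_
    have e1 : ∀ᶠ h : V × ℝ × W in 𝓝 0, |sc N h.2.1| ≤ h.2.1 ^ 2 := by
      have hcont : Tendsto (fun h : V × ℝ × W => h.2.1) (𝓝 0) (𝓝 0) := by
        have : Continuous (fun h : V × ℝ × W => h.2.1) := by fun_prop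
        exact this.tendsto' _ _ rfl
      exact hcont.eventually (sc_small N)
    have e2 : ∀ᶠ h : V × ℝ × W in 𝓝 0, ‖h‖ < 1 := by
      have h2 : Tendsto (fun h : V × ℝ × W => ‖h‖) (𝓝 0) (𝓝 0) := by
        have : Continuous (fun h : V × ℝ × W => ‖h‖) := by fun_prop
        exact this.tendsto' _ _ norm_zero
      exact h2.eventually (gt_mem_nhds one_pos)
    filter_upwards [e1, e2] with h hs h1
    rw [Ph_zero, sub_zero, ContinuousLinearMap.zero_apply, sub_zero]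
    have hw : w + h.2.2 ∈ closedBall w 1 := by
      rw [mem_closedBall, dist_eq_norm, add_sub_cancel_left]
      exact (norm_snd_le h.2).trans ((norm_snd_le h).trans h1.le)
    have hb := hB ((h.2.1)⁻¹ • (y + h.1)) (w + h.2.2) hw
    have e3 : Ph N g ((y, 0, w) + h) = sc N h.2.1 • g ((h.2.1)⁻¹ • (y + h.1), w + h.2.2) := by
      simp [Ph]
    rw [e3, norm_smul, Real.norm_eq_abs, Real.norm_eq_abs, abs_of_nonneg (sq_nonneg ‖h‖)]
    have h3 : h.2.1 ^ 2 ≤ ‖h‖ ^ 2 := by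
      rw [← sq_abs (h.2.1)]
      have : |h.2.1| ≤ ‖h‖ := (norm_fst_le h.2).trans (norm_snd_le h)
      exact pow_le_pow_left₀ (abs_nonneg _) this 2
    calc |sc N h.2.1| * ‖g ((h.2.1)⁻¹ • (y + h.1), w + h.2.2)‖
        ≤ ‖h‖ ^ 2 * B := by
          refine mul_le_mul (hs.trans h3) hb (norm_nonneg _) (by positivity)
      _ = B * ‖h‖ ^ 2 := by ring
  refine hO.trans_isLittleO ?_
  have := Asymptotics.isLittleO_pow_id (𝕜 := ℝ) (n := 2) (by norm_num)
  have h5 : Tendsto (fun h : V × ℝ × W => ‖h‖) (𝓝 0) (𝓝 0) := by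
    have : Continuous (fun h : V × ℝ × W => ‖h‖) := by fun_prop
    exact this.tendsto' _ _ norm_zero
  have h6 := this.comp_tendsto h5
  exact (h6.trans_isBigO (Asymptotics.isBigO_of_le _ (fun x => by simp)))

theorem hasF_ne {G : Type} [NormedAddCommGroup G] [NormedSpace ℝ G] (N : ℕ) (g : V × W → G)
    (hg : Differentiable ℝ g) (y : V) (s : ℝ) (hs : s ≠ 0) (w : W) :
    HasFDerivAt (Ph N g) (Dr N g (y, s, w)) (y, s, w) := by
  have hπ : HasFDerivAt (fun p : V × ℝ × W => p.2.1)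
      ((ContinuousLinearMap.fst ℝ ℝ W).comp (ContinuousLinearMap.snd ℝ V (ℝ × W))) (y, s, w) :=
    ((ContinuousLinearMap.fst ℝ ℝ W).comp (ContinuousLinearMap.snd ℝ V (ℝ × W))).hasFDerivAt
  have h1 : HasFDerivAt (fun p : V × ℝ × W => sc N p.2.1)
      ((sc (N + 2) s - N * sc (N + 1) s) •
        ((ContinuousLinearMap.fst ℝ ℝ W).comp (ContinuousLinearMap.snd ℝ V (ℝ × W))))
      (y, s, w) :=
    HasDerivAt.comp_hasFDerivAt (h₂ := sc N) (f := fun p : V × ℝ × W => p.2.1) (y, s, w)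
      (sc_hasDerivAt N s) hπ
  have h2 : HasFDerivAt (fun p : V × ℝ × W => p.2.1⁻¹)
      ((-(s ^ 2)⁻¹) •
        ((ContinuousLinearMap.fst ℝ ℝ W).comp (ContinuousLinearMap.snd ℝ V (ℝ × W))))
      (y, s, w) :=
    HasDerivAt.comp_hasFDerivAt (h₂ := fun x : ℝ => x⁻¹) (f := fun p : V × ℝ × W => p.2.1)
      (y, s, w) (hasDerivAt_inv hs) hπ
  have h3 : HasFDerivAt (fun p : V × ℝ × W => p.1) (ContinuousLinearMap.fst ℝ V (ℝ × W))
      (y, s, w) := (ContinuousLinearMap.fst ℝ V (ℝ × W)).hasFDerivAt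
  have h4 := h2.smul h3
  have h5 : HasFDerivAt (fun p : V × ℝ × W => p.2.2)
      ((ContinuousLinearMap.snd ℝ ℝ W).comp (ContinuousLinearMap.snd ℝ V (ℝ × W)))
      (y, s, w) :=
    ((ContinuousLinearMap.snd ℝ ℝ W).comp (ContinuousLinearMap.snd ℝ V (ℝ × W))).hasFDerivAt
  have h6 := h4.prodMk h5
  have h7 : HasFDerivAt g (fderiv ℝ g (s⁻¹ • y, w)) (s⁻¹ • y, w) := (hg _).hasFDerivAt
  have h8 := HasFDerivAt.comp (y, s, w) h7 h6
  have h9 := h1.smul h8
  refine h9.congr_fderiv ?_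
  have hsc : sc (N + 1) s = s⁻¹ * sc N s := by
    unfold sc
    ring
  refine ContinuousLinearMap.ext fun q => ?_
  obtain ⟨a, b, c⟩ := q
  have hdec : fderiv ℝ g (s⁻¹ • y, w) (s⁻¹ • a + (-(s ^ 2)⁻¹ * b) • y, c) =
      s⁻¹ • fderiv ℝ g (s⁻¹ • y, w) (a, 0) +
        (-(s ^ 2)⁻¹ * b) • fderiv ℝ g (s⁻¹ • y, w) (y, 0) +
        fderiv ℝ g (s⁻¹ • y, w) (0, c) := by
    rw [← map_smul, ← map_smul, ← map_add, ← map_add]
    congr 1
    simp
  have hy : fderiv ℝ g (s⁻¹ • y, w) (s⁻¹ • y, 0) = s⁻¹ • fderiv ℝ g (s⁻¹ • y, w) (y, 0) := by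
    rw [← map_smul]
    congr 1
    simp
  have hL : (sc N s • (fderiv ℝ g (s⁻¹ • y, w)).comp
      ((s⁻¹ • ContinuousLinearMap.fst ℝ V (ℝ × W) +
        ((-(s ^ 2)⁻¹) • ((ContinuousLinearMap.fst ℝ ℝ W).comp
          (ContinuousLinearMap.snd ℝ V (ℝ × W)))).smulRight y).prod
        ((ContinuousLinearMap.snd ℝ ℝ W).comp (ContinuousLinearMap.snd ℝ V (ℝ × W)))) +
      ((sc (N + 2) s - N * sc (N + 1) s) •
        ((ContinuousLinearMap.fst ℝ ℝ W).comp (ContinuousLinearMap.snd ℝ V (ℝ × W)))).smulRight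
        (g (s⁻¹ • y, w))) (a, b, c) =
      sc N s • fderiv ℝ g (s⁻¹ • y, w) (s⁻¹ • a + (-(s ^ 2)⁻¹ * b) • y, c) +
        ((sc (N + 2) s - N * sc (N + 1) s) * b) • g (s⁻¹ • y, w) := by
    simp
  have hR : Dr N g (y, s, w) (a, b, c) =
      sc (N + 1) s • fderiv ℝ g (s⁻¹ • y, w) (a, 0) + sc N s • fderiv ℝ g (s⁻¹ • y, w) (0, c) +
        b • (sc (N + 2) s • g (s⁻¹ • y, w) - (N : ℝ) • sc (N + 1) s • g (s⁻¹ • y, w) -
          sc (N + 1) s • fderiv ℝ g (s⁻¹ • y, w) (s⁻¹ • y, 0)) := by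
    simp [Dr, Ph]
  refine (Eq.trans ?_ hL).trans ?_
  · rfl
  · rw [hR, hdec, hy, hsc]
    have e4 : (s ^ 2)⁻¹ = s⁻¹ * s⁻¹ := by
      rw [pow_two, mul_inv]
    rw [e4]
    module

theorem hasF {G : Type} [NormedAddCommGroup G] [NormedSpace ℝ G] (N : ℕ) (g : V × W → G)
    (hg : ContDiff ℝ ∞ g) (ρ : ℝ) (h0 : ∀ x w, ρ ≤ ‖x‖ → g (x, w) = 0) (p : V × ℝ × W) :
    HasFDerivAt (Ph N g) (Dr N g p) p := by
  obtain ⟨y, s, w⟩ := p
  by_cases hs : s = 0
  · subst hs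
    have e : Dr N g (y, 0, w) = 0 := by
      refine ContinuousLinearMap.ext fun q => ?_
      simp [Dr, Ph_zero]
    rw [e]
    exact hasF_zero N g hg.continuous ρ h0 y w
  · exact hasF_ne N g (hg.differentiable (by simp)) y s hs w

theorem fderiv_zero_of {G : Type} [NormedAddCommGroup G] [NormedSpace ℝ G] (g : V × W → G)
    (ρ : ℝ) (h0 : ∀ x w, ρ ≤ ‖x‖ → g (x, w) = 0) (x : V) (w : W) (hx : ρ + 1 ≤ ‖x‖) :
    fderiv ℝ g (x, w) = 0 := by
  have h1 : g =ᶠ[𝓝 (x, w)] fun _ => 0 := by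
    have h2 : ∀ᶠ q : V × W in 𝓝 (x, w), ρ < ‖q.1‖ := by
      have hc : Continuous fun q : V × W => ‖q.1‖ := by fun_prop
      exact hc.continuousAt.eventually (lt_mem_nhds (show ρ < ‖x‖ by linarith))
    filter_upwards [h2] with q hq
    exact h0 q.1 q.2 hq.le
  rw [h1.fderiv_eq]
  simp

theorem contDiff_Ph (n : ℕ) : ∀ (G : Type) [NormedAddCommGroup G] [NormedSpace ℝ G] (N : ℕ)
    (g : V × W → G), ContDiff ℝ ∞ g → ∀ ρ : ℝ, (∀ x w, ρ ≤ ‖x‖ → g (x, w) = 0) →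
    ContDiff ℝ n (Ph N g) := by
  induction n with
  | zero =>
    intro G _ _ N g hg ρ h0
    rw [Nat.cast_zero, contDiff_zero]
    have hd : Differentiable ℝ (Ph N g) := fun p => (hasF N g hg ρ h0 p).differentiableAt
    exact hd.continuous
  | succ n ih =>
    intro G _ _ N g hg ρ h0
    rw [Nat.cast_add, Nat.cast_one, contDiff_succ_iff_hasFDerivAt]
    refine ⟨Dr N g, ?_, hasF N g hg ρ h0⟩
    have hg' : ContDiff ℝ ∞ (fderiv ℝ g) := hg.fderiv_right (by simp)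
    have z' : ∀ x w, ρ + 1 ≤ ‖x‖ → fderiv ℝ g (x, w) = 0 := fun x w hx =>
      fderiv_zero_of g ρ h0 x w hx
    have hg1 : ContDiff ℝ ∞ (fun q : V × W => fderiv ℝ g q (q.1, 0)) :=
      hg'.clm_apply (contDiff_fst.prodMk contDiff_const)
    have z1 : ∀ x w, ρ + 1 ≤ ‖x‖ → (fun q : V × W => fderiv ℝ g q (q.1, 0)) (x, w) = 0 := by
      intro x w hx
      show fderiv ℝ g (x, w) (x, 0) = 0
      rw [z' x w hx]
      rfl
    have c1 := ih (V × W →L[ℝ] G) (N + 1) (fderiv ℝ g) hg' (ρ + 1) z'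
    have c2 := ih (V × W →L[ℝ] G) N (fderiv ℝ g) hg' (ρ + 1) z'
    have c3 := ih G (N + 2) g hg ρ h0
    have c4 := ih G (N + 1) g hg ρ h0
    have c5 := ih G (N + 1) (fun q : V × W => fderiv ℝ g q (q.1, 0)) hg1 (ρ + 1) z1
    have k1 : ContDiff ℝ n (fun p : V × ℝ × W => (Ph (N + 1) (fderiv ℝ g) p).comp
        ((ContinuousLinearMap.inl ℝ V W).comp (ContinuousLinearMap.fst ℝ V (ℝ × W)))) :=
      c1.clm_comp contDiff_const
    have k2 : ContDiff ℝ n (fun p : V × ℝ × W => (Ph N (fderiv ℝ g) p).comp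
        ((ContinuousLinearMap.inr ℝ V W).comp
          ((ContinuousLinearMap.snd ℝ ℝ W).comp (ContinuousLinearMap.snd ℝ V (ℝ × W))))) :=
      c2.clm_comp contDiff_const
    have k3 : ContDiff ℝ n (fun p : V × ℝ × W =>
        ((ContinuousLinearMap.fst ℝ ℝ W).comp (ContinuousLinearMap.snd ℝ V (ℝ × W))).smulRight
          (Ph (N + 2) g p - (N : ℝ) • Ph (N + 1) g p -
            Ph (N + 1) (fun q : V × W => fderiv ℝ g q (q.1, 0)) p)) :=
      contDiff_const.smulRight ((c3.sub (contDiff_const.smul c4)).sub c5)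
    exact (k1.add k2).add k3

theorem main : S_FLAT := by
  intro k u ρ hu h0
  rw [contDiff_infty]
  intro n
  have h1 := contDiff_Ph n (E 2) 0 (fun p : E 2 × E k => u p.1 p.2) hu ρ (fun x w hx => h0 x w hx)
  have h2 : (fun p : E 2 × ℝ × E k =>
      expNegInvGlue p.2.1 • p.2.1 • u (p.2.1⁻¹ • p.1) p.2.2) =
      fun p : E 2 × ℝ × E k => p.2.1 • Ph 0 (fun p : E 2 × E k => u p.1 p.2) p := by
    ext1 p
    simp only [Ph, sc, pow_zero, one_mul]
    rw [smul_comm]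
  rw [h2]
  exact (contDiff_fst.comp contDiff_snd).smul h1

end Pool.Agent.N550.TS.Flat
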