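import Pool.Agent.N550.TS.Stm

/-!
# Project TS (helper550), part HND2 by helper592: the 2-handle modification is a homeomorphism
-/

set_option autoImplicit false

open Set Filter Topology Metric Function MeasureTheory
open scoped Manifold ContDiff

noncomputable section

namespace Pool.Agent.N550.TS.Hnd2

open Pool.Agent.Y522 Pool.Agent.N550.KH Pool.Agent.N550.TS

/-- `jn` as a continuous linear map -/
def JN (m k : ℕ) : (E m × E k) →L[ℝ] E (m + k) :=
  LinearMap.toContinuousLinearMap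
    { toFun := fun p => jn m k p.1 p.2
      map_add' := fun x y => by
        ext i
        refine Fin.addCases (fun i => ?_) (fun i => ?_) i <;> simp [jn]
      map_smul' := fun c x => by
        ext i
        refine Fin.addCases (fun i => ?_) (fun i => ?_) i <;> simp [jn] }

theorem JN_apply (m k : ℕ) (p : E m × E k) : JN m k p = jn m k p.1 p.2 := rfl

/-- splitting of the coordinates -/
def J (m k : ℕ) : E (m + k) ≃ₜ E m × E k where
  toFun z := (up m k z, vp m k z)
  invFun p := jn m k p.1 p.2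
  left_inv z := jn_up_vp m k z
  right_inv p := by simp
  continuous_toFun := (up m k).continuous.prodMk (vp m k).continuous
  continuous_invFun := (JN m k).continuous

theorem fib {k : ℕ} (r : ℝ) (P : E 2 → E k → E 2)
    (hP : Continuous fun p : E 2 × E k => P p.1 p.2) (hr : ∀ y w, r ≤ ‖y‖ → P y w = y)
    (hb : ∀ w, Bijective fun y => P y w) :
    ∃ B : (E 2 × E k) ≃ₜ (E 2 × E k), ∀ y w, B (y, w) = (P y w, w) := by
  set f : E 2 × E k → E 2 × E k := fun p => (P p.1 p.2, p.2) with hf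
  have hfc : Continuous f := hP.prodMk continuous_snd
  have hbij : Bijective f := by
    constructor
    · rintro ⟨y, w⟩ ⟨y', w'⟩ h
      have h2 : w = w' := congrArg Prod.snd h
      subst h2
      have h1 : P y w = P y' w := congrArg Prod.fst h
      have h3 : y = y' := (hb w).1 h1
      rw [h3]
    · rintro ⟨y, w⟩
      obtain ⟨y', hy'⟩ := (hb w).2 y
      exact ⟨(y', w), Prod.ext hy' rfl⟩
  have hprop : IsProperMap f := by
    rw [isProperMap_iff_isCompact_preimage]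
    refine ⟨hfc, fun K hK => ?_⟩
    refine Metric.isCompact_of_isClosed_isBounded (hK.isClosed.preimage hfc) ?_
    obtain ⟨R, hR⟩ := hK.isBounded.exists_norm_le
    refine (Metric.isBounded_closedBall (x := (0 : E 2 × E k)) (r := max r R)).subset ?_
    rintro ⟨y, w⟩ hyw
    have h1 : ‖f (y, w)‖ ≤ R := hR _ hyw
    rw [mem_closedBall_zero_iff]
    have h2 : ‖P y w‖ ≤ R := (le_max_left _ _).trans h1
    have h3 : ‖w‖ ≤ R := (le_max_right _ _).trans h1
    refine max_le ?_ (h3.trans (le_max_right _ _))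
    show ‖y‖ ≤ max r R
    rcases le_total r ‖y‖ with h4 | h4
    · rw [hr y w h4] at h2
      exact h2.trans (le_max_right _ _)
    · exact h4.trans (le_max_left _ _)
  exact ⟨(Equiv.ofBijective f hbij).toHomeomorphOfContinuousClosed hfc hprop.isClosedMap,
    fun y w => rfl⟩

/-- retraction onto a ball -/
def rt {k : ℕ} (ε : ℝ) (w : E k) : E k := (ε / max ε ‖w‖) • w

theorem rt_cont {k : ℕ} (ε : ℝ) (hε : 0 < ε) : Continuous (fun w : E k => rt ε w) := by
  have h1 : Continuous fun w : E k => ε / max ε ‖w‖ := by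
    refine continuous_const.div (continuous_const.max continuous_norm) ?_
    intro w
    exact (lt_of_lt_of_le hε (le_max_left _ _)).ne'
  exact h1.smul continuous_id

theorem rt_norm {k : ℕ} (ε : ℝ) (hε : 0 < ε) (w : E k) :
    ‖rt ε w‖ = ε / max ε ‖w‖ * ‖w‖ := by
  have h : 0 < max ε ‖w‖ := lt_of_lt_of_le hε (le_max_left _ _)
  unfold rt
  rw [norm_smul, Real.norm_of_nonneg (by positivity)]

theorem rt_le {k : ℕ} (ε : ℝ) (hε : 0 < ε) (w : E k) : ‖rt ε w‖ ≤ ε := by
  have h : 0 < max ε ‖w‖ := lt_of_lt_of_le hε (le_max_left _ _)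
  rw [rt_norm ε hε, div_mul_eq_mul_div, div_le_iff₀ h]
  exact mul_le_mul_of_nonneg_left (le_max_right _ _) hε.le

theorem rt_eq {k : ℕ} (ε : ℝ) (hε : 0 < ε) (w : E k) (h : ‖w‖ ≤ ε) : rt ε w = w := by
  unfold rt
  rw [max_eq_left h, div_self hε.ne', one_smul]

theorem rt_ge {k : ℕ} (ε : ℝ) (hε : 0 < ε) (w : E k) (h : ε / 2 ≤ ‖w‖) :
    ε / 2 ≤ ‖rt ε w‖ := by
  rcases le_total ‖w‖ ε with h1 | h1
  · rw [rt_eq ε hε w h1]
    exact h
  · have h2 : 0 < ‖w‖ := lt_of_lt_of_le hε h1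
    rw [rt_norm ε hε, max_eq_right h1, div_mul_cancel₀ _ h2.ne']
    linarith

theorem main : S_STR → S_INT → S_HND2 := by
  classical
  intro hSTR hINT k M _ _ _ _ _ F hT h1 h2
  obtain ⟨T, u, ρ, ε, W, hρ0, hρ1, hε, hWo, hWs, hWsm, hWT, hWLD, hinj, hsurj, hu, hu0, hFu,
    hbij, hcore⟩ := hSTR k M F hT h1 h2
  set ρ₂ : ℝ := (ρ + 1) / 2 with hρ₂
  have hρ₂0 : 0 < ρ₂ := by rw [hρ₂]; linarith
  have hρ₂1 : ρ₂ < 1 := by rw [hρ₂]; linarith
  have hρρ₂ : ρ < ρ₂ := by rw [hρ₂]; linarith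
  obtain ⟨ψ, a, ha0, haε, hψ, hψb, hψ1, hψ2, hψ3⟩ := hINT k u ρ ρ₂ ε hρ0 hρρ₂ hε hu hu0 hbij
  have hTu : ∀ z, z ∈ F.target := fun z => by rw [hT]; trivial
  have hsc : Continuous F.symm := by
    rw [← continuousOn_univ, ← hT]
    exact F.continuousOn_symm
  -- the two homeomorphisms of the product
  obtain ⟨B, hB⟩ := fib (k := k) ρ (fun y w => y + u y (rt ε w))
    (continuous_fst.add (hu.continuous.comp
      (continuous_fst.prodMk ((rt_cont ε hε).comp continuous_snd))))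
    (fun y w h => by
      show y + u y (rt ε w) = y
      rw [hu0 y _ h, add_zero])
    (fun w => hbij (rt ε w) (rt_le ε hε w))
  obtain ⟨A, hA⟩ := fib (k := k) ρ₂ (fun y w => ψ y (rt ε w))
    (hψ.continuous.comp (continuous_fst.prodMk ((rt_cont ε hε).comp continuous_snd)))
    (fun y w h => hψ1 y _ h)
    (fun w => hψb (rt ε w) (rt_le ε hε w))
  set K₀ : (E 2 × E k) ≃ₜ (E 2 × E k) := B.symm.trans A with hK₀
  have hK : ∀ y w, K₀ (y + u y (rt ε w), w) = (ψ y (rt ε w), w) := by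
    intro y w
    have h3 : B.symm (y + u y (rt ε w), w) = (y, w) := by
      rw [← hB y w, Homeomorph.symm_apply_apply]
    show A (B.symm (y + u y (rt ε w), w)) = _
    rw [h3, hA]
  have hKex : ∀ (y' : E 2) (w : E k), ∃ y, y + u y (rt ε w) = y' := fun y' w =>
    (hbij (rt ε w) (rt_le ε hε w)).2 y'
  set F' : OpenPartialHomeomorph M (E (2 + k)) :=
    F.transHomeomorph ((J 2 k).trans (K₀.trans (J 2 k).symm)) with hF'
  have hF's : F'.source = F.source := rfl
  have hF't : F'.target = univ := by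
    show (((J 2 k).trans (K₀.trans (J 2 k).symm)).symm) ⁻¹' F.target = univ
    rw [hT, preimage_univ]
  have hF'x : ∀ x, F' x = jn 2 k (K₀ (up 2 k (F x), vp 2 k (F x))).1
      (K₀ (up 2 k (F x), vp 2 k (F x))).2 := fun x => rfl
  -- the value of the second coordinate
  have hvp : ∀ x, vp 2 k (F' x) = vp 2 k (F x) := by
    intro x
    obtain ⟨y, hy⟩ := hKex (up 2 k (F x)) (vp 2 k (F x))
    rw [hF'x, vp_jn, ← hy, hK]
  -- values on `Z`
  have hV1 : ∀ x ∈ W, ‖T x‖ ≤ 1 → ‖vp 2 k (F x)‖ ≤ ε →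
      F' x = jn 2 k (ψ (T x) (vp 2 k (F x))) (vp 2 k (F x)) := by
    intro x hx hx1 hx2
    have h3 : rt ε (vp 2 k (F x)) = vp 2 k (F x) := rt_eq ε hε _ hx2
    have h4 := hK (T x) (vp 2 k (F x))
    rw [h3, ← hFu x hx hx1 hx2] at h4
    rw [hF'x, h4]
  -- values for large `w`
  have hV2 : ∀ x, ε / 2 ≤ ‖vp 2 k (F x)‖ → F' x = F x := by
    intro x hx
    obtain ⟨y, hy⟩ := hKex (up 2 k (F x)) (vp 2 k (F x))
    have h4 := hK y (vp 2 k (F x))
    rw [hψ3 y _ (rt_ge ε hε _ hx), hy] at h4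
    rw [hF'x, h4, jn_up_vp]
  -- points of the source are determined by their coordinates
  have hdet : ∀ x ∈ F.source, ∀ x' ∈ W, vp 2 k (F x') = vp 2 k (F x) →
      up 2 k (F x') = up 2 k (F x) → x' = x := by
    intro x hx x' hx' hv hup
    have h3 : F x' = F x := by
      rw [← jn_up_vp 2 k (F x'), ← jn_up_vp 2 k (F x), hv, hup]
    exact F.injOn (hWs hx') hx h3
  -- values off `Z`
  have hV3 : ∀ x ∈ F.source, ¬ (x ∈ W ∧ ‖T x‖ ≤ 1 ∧ ‖vp 2 k (F x)‖ ≤ ε) → F' x = F x := by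
    intro x hx hZ
    rcases le_total (ε / 2) ‖vp 2 k (F x)‖ with h3 | h3
    · exact hV2 x h3
    · have hw : ‖vp 2 k (F x)‖ ≤ ε := by linarith
      have hrt : rt ε (vp 2 k (F x)) = vp 2 k (F x) := rt_eq ε hε _ hw
      obtain ⟨y, hy⟩ := hKex (up 2 k (F x)) (vp 2 k (F x))
      have h4 := hK y (vp 2 k (F x))
      rw [hy] at h4
      by_cases hy1 : ‖y‖ ≤ 1
      · exfalso
        obtain ⟨x', hx', hTx', hvx'⟩ := hsurj y (vp 2 k (F x)) hy1 hw
        have h5 : up 2 k (F x') = up 2 k (F x) := by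
          rw [hFu x' hx' (by rw [hTx']; exact hy1) (by rw [hvx']; exact hw), hTx', hvx', ← hy, hrt]
        have h6 := hdet x hx x' hx' hvx' h5
        subst h6
        exact hZ ⟨hx', by rw [hTx']; exact hy1, hw⟩
      · rw [not_le] at hy1
        rw [hu0 y _ (by linarith), add_zero] at hy
        rw [hψ1 y _ (by linarith), hy] at h4
        rw [hF'x, h4, jn_up_vp]
  -- the compact set
  set C : Set M := {x | x ∈ W ∧ ‖T x‖ ≤ ρ₂ ∧ ‖vp 2 k (F x)‖ ≤ ε / 2} with hC
  have hV4 : ∀ x ∈ F.source, x ∉ C → F' x = F x := by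
    intro x hx hxC
    by_cases hZ : x ∈ W ∧ ‖T x‖ ≤ 1 ∧ ‖vp 2 k (F x)‖ ≤ ε
    · obtain ⟨hxW, hT1, hv⟩ := hZ
      by_cases h3 : ε / 2 ≤ ‖vp 2 k (F x)‖
      · exact hV2 x h3
      · rw [not_le] at h3
        have h4 : ρ₂ < ‖T x‖ := by
          by_contra hc
          rw [not_lt] at hc
          exact hxC ⟨hxW, hc, h3.le⟩
        rw [hV1 x hxW hT1 hv, hψ1 _ _ h4.le]
        have h5 := hFu x hxW hT1 hv
        rw [hu0 _ _ (by linarith), add_zero] at h5
        rw [← h5, jn_up_vp]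
    · exact hV3 x hx hZ
  have hCW : C ⊆ W := fun x hx => hx.1
  have hCs : C ⊆ F.source := hCW.trans hWs
  have hCc : IsCompact C := by
    have h3 : C = F.symm '' ((fun p : E 2 × E k => jn 2 k (p.1 + u p.1 p.2) p.2) ''
        (closedBall 0 ρ₂ ×ˢ closedBall 0 (ε / 2))) := by
      ext x
      constructor
      · rintro ⟨hxW, hx1, hx2⟩
        refine ⟨F x, ⟨(T x, vp 2 k (F x)), ⟨?_, ?_⟩, ?_⟩, F.left_inv (hWs hxW)⟩
        · rw [mem_closedBall_zero_iff]
          exact hx1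
        · rw [mem_closedBall_zero_iff]
          exact hx2
        · show jn 2 k (T x + u (T x) (vp 2 k (F x))) (vp 2 k (F x)) = F x
          rw [← hFu x hxW (by linarith) (by linarith), jn_up_vp]
      · rintro ⟨_, ⟨⟨y, w⟩, ⟨hy, hw⟩, rfl⟩, rfl⟩
        rw [mem_closedBall_zero_iff] at hy hw
        have hy' : ‖y‖ ≤ 1 := by
          have : ‖y‖ ≤ ρ₂ := hy
          linarith
        have hw' : ‖w‖ ≤ ε := by
          have : ‖w‖ ≤ ε / 2 := hw
          linarith
        obtain ⟨x', hx', hTx', hvx'⟩ := hsurj y w hy' hw'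
        have h4 : F x' = jn 2 k (y + u y w) w := by
          rw [← jn_up_vp 2 k (F x'), hFu x' hx' (by rw [hTx']; exact hy')
            (by rw [hvx']; exact hw'), hTx', hvx']
        have h5 : F.symm (jn 2 k (y + u y w) w) = x' := by
          rw [← h4]
          exact F.left_inv (hWs hx')
        show F.symm (jn 2 k (y + u y w) w) ∈ C
        rw [h5]
        exact ⟨hx', by rw [hTx']; exact hy, by rw [hvx']; exact hw⟩
    rw [h3]
    refine IsCompact.image (IsCompact.image ?_ ?_) hsc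
    · exact (isCompact_closedBall _ _).prod (isCompact_closedBall _ _)
    · exact (JN 2 k).continuous.comp ((continuous_fst.add hu.continuous).prodMk continuous_snd)
  have hCcl : IsClosed C := hCc.isClosed
  have hup : ∀ x ∈ C, ‖up 2 k (F x)‖ < 1 := by
    rintro x ⟨hxW, hx1, hx2⟩
    rw [hFu x hxW (by linarith) (by linarith)]
    refine lt_of_le_of_lt ?_ hρ₂1
    by_contra hc
    rw [not_le] at hc
    have h3 := (hbij (vp 2 k (F x)) (by linarith)).1
      (a₁ := T x + u (T x) (vp 2 k (F x))) (a₂ := T x) (by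
        show T x + u (T x) (vp 2 k (F x)) + u (T x + u (T x) (vp 2 k (F x))) (vp 2 k (F x)) = _
        rw [hu0 _ _ (show ρ ≤ ‖T x + u (T x) (vp 2 k (F x))‖ by linarith), add_zero])
    rw [h3] at hc
    linarith
  -- continuity
  have hvc : ∀ x ∈ F.source, ContinuousAt (fun y => ‖vp 2 k (F y)‖) x := fun x hx =>
    (vp 2 k).continuous.norm.continuousAt.comp (F.continuousAt hx)
  have hTc : ∀ x ∈ W, ContinuousAt (fun y => ‖T y‖) x := fun x hx =>
    (hWT x hx).continuousAt.norm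
  have hoff : ∀ x ∈ F.source, x ∉ C → F' =ᶠ[𝓝 x] F := by
    intro x hx hxC
    filter_upwards [F.open_source.mem_nhds hx, hCcl.isOpen_compl.mem_nhds hxC] with y hy hyC
    exact hV4 y hy hyC
  refine ⟨F', C, hF's, hF't, hCc, hCs, fun x hx => ⟨hWsm x (hCW hx), hup x hx⟩, hV4, ?_, ?_⟩
  · -- smoothness
    intro x hx hSm
    by_cases hxC : x ∈ C
    · obtain ⟨hxW, hx1, hx2⟩ := hxC
      have e1 : ∀ᶠ y in 𝓝 x, ‖T y‖ < 1 := (hTc x hxW).eventually_lt continuousAt_const (by
        show ‖T x‖ < 1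
        linarith)
      have e2 : ∀ᶠ y in 𝓝 x, ‖vp 2 k (F y)‖ < ε := (hvc x hx).eventually_lt continuousAt_const (by
        show ‖vp 2 k (F x)‖ < ε
        linarith)
      have e3 : ∀ᶠ y in 𝓝 x, y ∈ W := hWo.mem_nhds hxW
      have e4 : ∀ᶠ y in 𝓝 x, F' y = jn 2 k (ψ (T y) (vp 2 k (F y))) (vp 2 k (F y)) := by
        filter_upwards [e1, e2, e3] with y hy1 hy2 hy3
        exact hV1 y hy3 hy1.le hy2.le
      filter_upwards [e4.eventually_nhds, e3] with y hy hyW
      have hFs : ContMDiffAt (𝓡 (2 + k)) (𝓡 (2 + k)) ∞ F y := (hWsm y hyW).self_of_nhds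
      have hv : ContMDiffAt (𝓡 (2 + k)) (𝓡 k) ∞ (fun z => vp 2 k (F z)) y :=
        (vp 2 k).contMDiff.contMDiffAt.comp y hFs
      have hTv := (hWT y hyW).prodMk_space hv
      have hψy : ContMDiffAt (𝓡 (2 + k)) (𝓡 2) ∞ (fun z => ψ (T z) (vp 2 k (F z))) y :=
        ContMDiffAt.comp y (g := fun p : E 2 × E k => ψ p.1 p.2) hψ.contMDiff.contMDiffAt hTv
      have hall := hψy.prodMk_space hv
      have hG : ContMDiffAt (𝓡 (2 + k)) (𝓡 (2 + k)) ∞
          (fun z => JN 2 k (ψ (T z) (vp 2 k (F z)), vp 2 k (F z))) y :=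
        ContMDiffAt.comp y (g := fun p : E 2 × E k => JN 2 k p)
          (JN 2 k).contMDiff.contMDiffAt hall
      exact hG.congr_of_eventuallyEq hy
    · have e1 := hoff x hx hxC
      filter_upwards [hSm, e1.eventually_nhds] with y hy hy'
      exact hy.congr_of_eventuallyEq hy'
  · -- the core disc
    intro x hx hv hup1
    rw [hvp] at hv
    have hxWT : x ∈ W ∧ ‖T x‖ ≤ 1 := by
      by_cases hZ : x ∈ W ∧ ‖T x‖ ≤ 1 ∧ ‖vp 2 k (F x)‖ ≤ ε
      · exact ⟨hZ.1, hZ.2.1⟩
      · rw [hV3 x hx hZ] at hup1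
        exact hcore x hx hv hup1
    obtain ⟨hxW, hx1⟩ := hxWT
    rcases lt_or_eq_of_le hx1 with h3 | h3
    · have e1 : ∀ᶠ y in 𝓝 x, ‖T y‖ < 1 := (hTc x hxW).eventually_lt continuousAt_const h3
      have e2 : ∀ᶠ y in 𝓝 x, ‖vp 2 k (F y)‖ < a := (hvc x hx).eventually_lt continuousAt_const (by
        show ‖vp 2 k (F x)‖ < a
        rw [hv, norm_zero]
        exact ha0)
      refine LD.congr (hWLD x hxW) ?_
      filter_upwards [e1, e2, hWo.mem_nhds hxW] with y hy1 hy2 hy3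
      rw [hV1 y hy3 hy1.le (by linarith), hψ2 _ _ hy2.le]
    · have hxC : x ∉ C := fun hc => by
        have := hc.2.1
        linarith
      refine LD.congr (h2 x hx hv ?_) (hoff x hx hxC)
      rw [hFu x hxW hx1 (by rw [hv, norm_zero]; exact hε.le), hu0 _ _ (by linarith), add_zero, h3]

end Pool.Agent.N550.TS.Hnd2
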