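import Pool.Agent.N550.TS.Stm

/-!
# Project TS (helper550), leaf INT: interpolation through smooth homeomorphisms of the plane
-/

set_option autoImplicit false

open Set Filter Topology Metric Function MeasureTheory
open scoped Manifold ContDiff

noncomputable section

namespace Pool.Agent.N550.TS.Int

open Pool.Agent.Y522 Pool.Agent.N550.KH Pool.Agent.N550.TS

/-- radial maps `y ↦ m (‖y‖) y` with `m` nondecreasing are bijective -/
theorem rad_bij {V : Type*} [NormedAddCommGroup V] [NormedSpace ℝ V] (m : ℝ → ℝ)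
    (hc : Continuous m) (hm : ∀ s t : ℝ, 0 ≤ s → s ≤ t → m s ≤ m t) (hp : ∀ t : ℝ, 0 < t → 0 < m t)
    (r : ℝ) (hr : ∀ t : ℝ, r ≤ t → m t = 1) : Bijective fun y : V => m ‖y‖ • y := by
  have hlt : ∀ s t : ℝ, 0 ≤ s → s < t → m s * s < m t * t := by
    intro s t hs hst
    have h1 := hm s t hs hst.le
    have h2 := hp t (lt_of_le_of_lt hs hst)
    calc m s * s ≤ m t * s := mul_le_mul_of_nonneg_right h1 hs
      _ < m t * t := mul_lt_mul_of_pos_left hst h2
  have hnn : ∀ y : V, 0 ≤ m ‖y‖ * ‖y‖ := by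
    intro y
    rcases eq_or_lt_of_le (norm_nonneg y) with h | h
    · rw [← h, mul_zero]
    · exact mul_nonneg (hp _ h).le h.le
  have hnorm : ∀ y : V, ‖m ‖y‖ • y‖ = m ‖y‖ * ‖y‖ := by
    intro y
    rw [norm_smul, Real.norm_eq_abs]
    rcases eq_or_lt_of_le (norm_nonneg y) with h | h
    · rw [← h, mul_zero, mul_zero]
    · rw [abs_of_pos (hp _ h)]
  constructor
  · intro y z hyz
    simp only at hyz
    have h1 : m ‖y‖ * ‖y‖ = m ‖z‖ * ‖z‖ := by
      rw [← hnorm, ← hnorm, hyz]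
    have h2 : ‖y‖ = ‖z‖ := by
      rcases lt_trichotomy ‖y‖ ‖z‖ with h | h | h
      · exact absurd h1 (hlt _ _ (norm_nonneg _) h).ne
      · exact h
      · exact absurd h1 (hlt _ _ (norm_nonneg _) h).ne'
    rw [h2] at hyz
    rcases eq_or_lt_of_le (norm_nonneg z) with h | h
    · have hz : z = 0 := norm_eq_zero.1 h.symm
      have hy : y = 0 := norm_eq_zero.1 (by rw [h2, ← h])
      rw [hz, hy]
    · exact smul_right_injective V (hp _ h).ne' hyz
  · intro z
    by_cases hz : z = 0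
    · exact ⟨0, by simp [hz]⟩
    have hz0 : 0 < ‖z‖ := norm_pos_iff.2 hz
    set b := max r ‖z‖ with hb
    have hb0 : 0 ≤ b := le_trans (norm_nonneg z) (le_max_right _ _)
    have hcont : ContinuousOn (fun t : ℝ => m t * t) (Icc 0 b) :=
      (hc.mul continuous_id).continuousOn
    have hmem : ‖z‖ ∈ Icc ((fun t : ℝ => m t * t) 0) ((fun t : ℝ => m t * t) b) := by
      constructor
      · simp
      · simp only
        rw [hr b (le_max_left _ _), one_mul]
        exact le_max_right _ _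
    obtain ⟨t, ht, ht2⟩ := intermediate_value_Icc hb0 hcont hmem
    simp only at ht2
    refine ⟨(t / ‖z‖) • z, ?_⟩
    simp only
    have h3 : ‖(t / ‖z‖) • z‖ = t := by
      rw [norm_smul, Real.norm_eq_abs, abs_of_nonneg (div_nonneg ht.1 hz0.le),
        div_mul_cancel₀ _ hz0.ne']
    rw [h3, smul_smul, mul_div_assoc', ht2, div_self hz0.ne', one_smul]

/-- the map `y ↦ A (y + s u (y / s))` glued with a radial map is bijective -/
theorem glue_bij {V : Type*} [NormedAddCommGroup V] [NormedSpace ℝ V] (u : V → V) (ρ₁ ρ₂ s A : ℝ)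
    (h1 : 0 < ρ₁) (h12 : ρ₁ < ρ₂) (hs0 : 0 ≤ s) (hs1 : s ≤ 1) (hA0 : 0 ≤ A) (hA1 : A ≤ 1)
    (hsA : 0 < A ∨ s = 0) (hu : ∀ x, ρ₁ ≤ ‖x‖ → u x = 0) (hbij : Bijective fun x => x + u x) :
    Bijective fun y : V =>
      (A + (1 - A) * Real.smoothTransition ((‖y‖ ^ 2 - s ^ 2 * ρ₁ ^ 2) / (ρ₂ ^ 2 - ρ₁ ^ 2))) • y +
        (A * s) • u (s⁻¹ • y) := by
  have hden : 0 < ρ₂ ^ 2 - ρ₁ ^ 2 := by nlinarith
  set m : ℝ → ℝ := fun t =>
    A + (1 - A) * Real.smoothTransition ((t ^ 2 - s ^ 2 * ρ₁ ^ 2) / (ρ₂ ^ 2 - ρ₁ ^ 2)) with hm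
  -- the radial map
  have hR : Bijective fun y : V => m ‖y‖ • y := by
    refine rad_bij m ?_ ?_ ?_ ρ₂ ?_
    · have := Real.smoothTransition.continuous
      fun_prop
    · intro t t' ht htt
      have h3 : Real.smoothTransition ((t ^ 2 - s ^ 2 * ρ₁ ^ 2) / (ρ₂ ^ 2 - ρ₁ ^ 2)) ≤
          Real.smoothTransition ((t' ^ 2 - s ^ 2 * ρ₁ ^ 2) / (ρ₂ ^ 2 - ρ₁ ^ 2)) := by
        apply Real.smoothTransition.monotone
        have h4 : t ^ 2 ≤ t' ^ 2 := pow_le_pow_left₀ ht htt 2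
        exact div_le_div_of_nonneg_right (by linarith) hden.le
      have h5 : 0 ≤ 1 - A := by linarith
      have := mul_le_mul_of_nonneg_left h3 h5
      simp only [hm]
      linarith
    · intro t ht
      rcases hsA with h | h
      · have h3 := Real.smoothTransition.nonneg ((t ^ 2 - s ^ 2 * ρ₁ ^ 2) / (ρ₂ ^ 2 - ρ₁ ^ 2))
        have h4 : 0 ≤ 1 - A := by linarith
        have := mul_nonneg h4 h3
        simp only [hm]
        linarith
      · have h3 : 0 < Real.smoothTransition ((t ^ 2 - s ^ 2 * ρ₁ ^ 2) / (ρ₂ ^ 2 - ρ₁ ^ 2)) := by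
          apply Real.smoothTransition.pos_of_pos
          rw [h]
          apply div_pos _ hden
          nlinarith [pow_pos ht 2]
        simp only [hm]
        rcases eq_or_lt_of_le hA0 with h4 | h4
        · rw [← h4]
          linarith
        · have h5 : 0 ≤ 1 - A := by linarith
          have := mul_nonneg h5 h3.le
          linarith
    · intro t ht
      simp only [hm]
      have h3 : 1 ≤ (t ^ 2 - s ^ 2 * ρ₁ ^ 2) / (ρ₂ ^ 2 - ρ₁ ^ 2) := by
        rw [le_div_iff₀ hden]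
        have h4 : ρ₂ ^ 2 ≤ t ^ 2 := pow_le_pow_left₀ (by linarith) ht 2
        have h5 : s ^ 2 * ρ₁ ^ 2 ≤ 1 * ρ₁ ^ 2 :=
          mul_le_mul_of_nonneg_right (pow_le_one₀ hs0 hs1) (by positivity)
        linarith
      rw [Real.smoothTransition.one_of_one_le h3]
      ring
  -- the scaled map
  have hH : Bijective fun y : V => y + s • u (s⁻¹ • y) := by
    rcases eq_or_lt_of_le hs0 with h | h
    · rw [← h]
      simp only [zero_smul, add_zero]
      exact bijective_id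
    · have h3 : (fun y : V => y + s • u (s⁻¹ • y)) =
          (fun x : V => s • x) ∘ (fun x => x + u x) ∘ (fun y : V => s⁻¹ • y) := by
        funext y
        simp only [comp_apply, smul_add, smul_smul]
        rw [mul_inv_cancel₀ h.ne', one_smul]
      rw [h3]
      exact (MulAction.bijective₀ h.ne').comp
        (hbij.comp (MulAction.bijective₀ (inv_ne_zero h.ne')))
  have hball : ∀ x, ‖x‖ ≤ ρ₁ → ‖x + u x‖ ≤ ρ₁ := by
    intro x hx
    by_contra hcon
    rw [not_le] at hcon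
    have h3 : (fun x => x + u x) (x + u x) = (fun x => x + u x) x := by
      simp only
      rw [hu _ hcon.le, add_zero]
    have h4 := hbij.1 h3
    rw [h4] at hcon
    linarith
  have hmul : ∀ y : V, ‖y‖ ≤ s * ρ₁ → m ‖y‖ = A := by
    intro y hy
    simp only [hm]
    have h3 : (‖y‖ ^ 2 - s ^ 2 * ρ₁ ^ 2) / (ρ₂ ^ 2 - ρ₁ ^ 2) ≤ 0 := by
      apply div_nonpos_of_nonpos_of_nonneg _ hden.le
      have h4 : ‖y‖ ^ 2 ≤ (s * ρ₁) ^ 2 := pow_le_pow_left₀ (norm_nonneg _) hy 2
      rw [mul_pow] at h4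
      linarith
    rw [Real.smoothTransition.zero_of_nonpos h3]
    ring
  have key : (fun y : V =>
      (A + (1 - A) * Real.smoothTransition ((‖y‖ ^ 2 - s ^ 2 * ρ₁ ^ 2) / (ρ₂ ^ 2 - ρ₁ ^ 2))) • y +
        (A * s) • u (s⁻¹ • y)) =
      (fun y : V => m ‖y‖ • y) ∘ (fun y : V => y + s • u (s⁻¹ • y)) := by
    funext y
    simp only [comp_apply]
    have hmy : A + (1 - A) *
        Real.smoothTransition ((‖y‖ ^ 2 - s ^ 2 * ρ₁ ^ 2) / (ρ₂ ^ 2 - ρ₁ ^ 2)) = m ‖y‖ := rfl
    rw [hmy]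
    rcases eq_or_lt_of_le hs0 with h | h
    · rw [← h, mul_zero, zero_smul, add_zero, add_zero]
    by_cases hy : ‖y‖ ≤ s * ρ₁
    · have h3 : ‖s⁻¹ • y‖ ≤ ρ₁ := by
        rw [norm_smul, Real.norm_eq_abs, abs_of_pos (inv_pos.2 h), inv_mul_le_iff₀ h]
        exact hy
      have h4 := hball _ h3
      have h5 : y + s • u (s⁻¹ • y) = s • (s⁻¹ • y + u (s⁻¹ • y)) := by
        rw [smul_add, smul_smul, mul_inv_cancel₀ h.ne', one_smul]
      have h6 : ‖y + s • u (s⁻¹ • y)‖ ≤ s * ρ₁ := by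
        rw [h5, norm_smul, Real.norm_eq_abs, abs_of_pos h]
        exact mul_le_mul_of_nonneg_left h4 h.le
      rw [hmul y hy, hmul _ h6, smul_add, smul_smul]
    · rw [not_le] at hy
      have h3 : ρ₁ ≤ ‖s⁻¹ • y‖ := by
        rw [norm_smul, Real.norm_eq_abs, abs_of_pos (inv_pos.2 h), ← div_eq_inv_mul,
          le_div_iff₀ h]
        linarith
      rw [hu _ h3, smul_zero, smul_zero, add_zero, add_zero]
  rw [key]
  exact hR.comp hH

/-- a smooth radial cut-off function -/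
def cut (k : ℕ) (p q : ℝ) (w : E k) : ℝ := Real.smoothTransition ((‖w‖ ^ 2 - p ^ 2) / (q ^ 2 - p ^ 2))

theorem cut_smooth (k : ℕ) (p q : ℝ) : ContDiff ℝ ∞ (cut k p q) := by
  unfold cut
  refine Real.smoothTransition.contDiff.comp ?_
  exact ((contDiff_norm_sq ℝ).sub contDiff_const).div_const _

theorem cut_zero (k : ℕ) (p q : ℝ) (hp : 0 < p) (hpq : p < q) (w : E k) (hw : ‖w‖ ≤ p) :
    cut k p q w = 0 := by
  unfold cut
  apply Real.smoothTransition.zero_of_nonpos
  have h4 : ‖w‖ ^ 2 ≤ p ^ 2 := pow_le_pow_left₀ (norm_nonneg _) hw 2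
  exact div_nonpos_of_nonpos_of_nonneg (by linarith) (by nlinarith)

theorem cut_one (k : ℕ) (p q : ℝ) (hp : 0 < p) (hpq : p < q) (w : E k) (hw : q ≤ ‖w‖) :
    cut k p q w = 1 := by
  unfold cut
  apply Real.smoothTransition.one_of_one_le
  have h4 : q ^ 2 ≤ ‖w‖ ^ 2 := pow_le_pow_left₀ (by linarith) hw 2
  rw [le_div_iff₀ (by nlinarith)]
  linarith

theorem cut_nonneg (k : ℕ) (p q : ℝ) (w : E k) : 0 ≤ cut k p q w :=
  Real.smoothTransition.nonneg _

theorem cut_le (k : ℕ) (p q : ℝ) (w : E k) : cut k p q w ≤ 1 :=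
  Real.smoothTransition.le_one _

theorem e_one : expNegInvGlue 1 = Real.exp (-1) := by
  unfold expNegInvGlue
  norm_num

theorem main : S_FLAT → S_INT := by
  intro hF k u ρ₁ ρ₂ ε h1 h12 hε hu hu0 hbij
  have hden : 0 < ρ₂ ^ 2 - ρ₁ ^ 2 := by nlinarith
  -- the auxiliary functions
  set A₁ : E k → ℝ := fun w => 1 - cut k (ε / 16) (ε / 8) w with hA₁
  set σ : E k → ℝ := fun w => cut k (ε / 8) (ε / 4) w with hσ
  set κ : E k → ℝ := fun w => 1 + (Real.exp 1 - 1) * cut k (ε / 4) (ε / 2) w with hκ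
  set A : E k → ℝ := fun w => A₁ w + expNegInvGlue (σ w) * κ w with hA
  set G : E 2 → E k → ℝ := fun y w =>
    Real.smoothTransition ((‖y‖ ^ 2 - (σ w) ^ 2 * ρ₁ ^ 2) / (ρ₂ ^ 2 - ρ₁ ^ 2)) with hG
  have sA₁ : ContDiff ℝ ∞ A₁ := contDiff_const.sub (cut_smooth _ _ _)
  have sσ : ContDiff ℝ ∞ σ := cut_smooth _ _ _
  have sκ : ContDiff ℝ ∞ κ := contDiff_const.add (contDiff_const.mul (cut_smooth _ _ _))
  have sA : ContDiff ℝ ∞ A := sA₁.add ((expNegInvGlue.contDiff.comp sσ).mul sκ)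
  have e8 : ε / 16 < ε / 8 := by linarith
  have e4 : ε / 8 < ε / 4 := by linarith
  have e2 : ε / 4 < ε / 2 := by linarith
  have p16 : 0 < ε / 16 := by linarith
  have p8 : 0 < ε / 8 := by linarith
  have p4 : 0 < ε / 4 := by linarith
  have σ0 : ∀ w, ‖w‖ ≤ ε / 8 → σ w = 0 := fun w hw => cut_zero _ _ _ p8 e4 w hw
  have σ1 : ∀ w, ε / 4 ≤ ‖w‖ → σ w = 1 := fun w hw => cut_one _ _ _ p8 e4 w hw
  have σn : ∀ w, 0 ≤ σ w := fun w => cut_nonneg _ _ _ w
  have σl : ∀ w, σ w ≤ 1 := fun w => cut_le _ _ _ w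
  have A₁0 : ∀ w, ε / 8 ≤ ‖w‖ → A₁ w = 0 := by
    intro w hw
    simp only [hA₁]
    rw [cut_one _ _ _ p16 e8 w hw, sub_self]
  have A₁1 : ∀ w, ‖w‖ ≤ ε / 16 → A₁ w = 1 := by
    intro w hw
    simp only [hA₁]
    rw [cut_zero _ _ _ p16 e8 w hw, sub_zero]
  have hexp : (1 : ℝ) ≤ Real.exp 1 := Real.one_le_exp zero_le_one
  have κ1 : ∀ w, 1 ≤ κ w := by
    intro w
    have := mul_nonneg (by linarith : (0 : ℝ) ≤ Real.exp 1 - 1) (cut_nonneg k (ε / 4) (ε / 2) w)
    simp only [hκ]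
    linarith
  have κe : ∀ w, κ w ≤ Real.exp 1 := by
    intro w
    have := mul_le_mul_of_nonneg_left (cut_le k (ε / 4) (ε / 2) w)
      (by linarith : (0 : ℝ) ≤ Real.exp 1 - 1)
    simp only [hκ]
    linarith
  have κ2 : ∀ w, ε / 2 ≤ ‖w‖ → κ w = Real.exp 1 := by
    intro w hw
    simp only [hκ]
    rw [cut_one _ _ _ p4 e2 w hw]
    ring
  have ele : ∀ s : ℝ, s ≤ 1 → expNegInvGlue s ≤ Real.exp (-1) := by
    intro s hs
    rw [← e_one]
    exact expNegInvGlue.monotone hs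
  have hee : Real.exp (-1) * Real.exp 1 = 1 := by
    rw [← Real.exp_add]
    norm_num
  have hAle : ∀ w, 0 ≤ A w ∧ A w ≤ 1 := by
    intro w
    simp only [hA]
    rcases le_total ‖w‖ (ε / 8) with h | h
    · rw [σ0 w h, expNegInvGlue.zero, zero_mul, add_zero]
      constructor
      · simp only [hA₁]
        linarith [cut_le k (ε / 16) (ε / 8) w]
      · simp only [hA₁]
        linarith [cut_nonneg k (ε / 16) (ε / 8) w]
    · rw [A₁0 w h, zero_add]
      have h3 := κ1 w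
      constructor
      · exact mul_nonneg (expNegInvGlue.nonneg _) (by linarith)
      · rw [← hee]
        exact mul_le_mul (ele _ (σl w)) (κe w) (by linarith) (Real.exp_pos _).le
  have hAs : ∀ w, 0 < σ w → A w = expNegInvGlue (σ w) * κ w := by
    intro w hw
    simp only [hA]
    rcases le_total ‖w‖ (ε / 8) with h | h
    · rw [σ0 w h] at hw
      exact absurd hw (lt_irrefl _)
    · rw [A₁0 w h, zero_add]
  set ψ : E 2 → E k → E 2 := fun y w =>
    (A w + (1 - A w) * G y w) • y +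
      κ w • (expNegInvGlue (σ w) • σ w • u ((σ w)⁻¹ • y) w) with hψ
  refine ⟨ψ, ε / 16, p16, by linarith, ?_, ?_, ?_, ?_, ?_⟩
  · -- smoothness
    have s1 : ContDiff ℝ ∞ (fun p : E 2 × E k => A p.2) := sA.comp contDiff_snd
    have s2 : ContDiff ℝ ∞ (fun p : E 2 × E k => σ p.2) := sσ.comp contDiff_snd
    have s3 : ContDiff ℝ ∞ (fun p : E 2 × E k => κ p.2) := sκ.comp contDiff_snd
    have s4 : ContDiff ℝ ∞ (fun p : E 2 × E k => G p.1 p.2) := by
      simp only [hG]
      refine Real.smoothTransition.contDiff.comp ?_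
      refine ContDiff.div_const ?_ _
      exact ((contDiff_norm_sq ℝ).comp contDiff_fst).sub ((s2.pow 2).mul contDiff_const)
    have s5 : ContDiff ℝ ∞ (fun p : E 2 × E k =>
        expNegInvGlue (σ p.2) • σ p.2 • u ((σ p.2)⁻¹ • p.1) p.2) :=
      (hF k u ρ₁ hu hu0).comp (contDiff_fst.prodMk (s2.prodMk contDiff_snd))
    exact ((s1.add ((contDiff_const.sub s1).mul s4)).smul contDiff_fst).add (s3.smul s5)
  · -- bijectivity
    intro w hw
    have h3 := glue_bij (fun x => u x w) ρ₁ ρ₂ (σ w) (A w) h1 h12 (σn w) (σl w) (hAle w).1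
      (hAle w).2 (by
        rcases eq_or_lt_of_le (σn w) with h | h
        · right
          exact h.symm
        · left
          rw [hAs w h]
          exact mul_pos (expNegInvGlue.pos_of_pos h) (by linarith [κ1 w])) (fun x hx => hu0 x w hx)
      (hbij w hw)
    have h4 : (fun y => ψ y w) = fun y : E 2 =>
        (A w + (1 - A w) * Real.smoothTransition
          ((‖y‖ ^ 2 - (σ w) ^ 2 * ρ₁ ^ 2) / (ρ₂ ^ 2 - ρ₁ ^ 2))) • y +
        (A w * σ w) • u ((σ w)⁻¹ • y) w := by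
      funext y
      simp only [hψ, hG]
      congr 1
      rcases eq_or_lt_of_le (σn w) with h | h
      · rw [← h, expNegInvGlue.zero, mul_zero, zero_smul, zero_smul, smul_zero]
      · rw [hAs w h, smul_smul, smul_smul]
        congr 1
        ring
    rw [h4]
    exact h3
  · -- far away
    intro y w hy
    simp only [hψ, hG]
    have h3 : 1 ≤ (‖y‖ ^ 2 - (σ w) ^ 2 * ρ₁ ^ 2) / (ρ₂ ^ 2 - ρ₁ ^ 2) := by
      rw [le_div_iff₀ hden]
      have h4 : ρ₂ ^ 2 ≤ ‖y‖ ^ 2 := pow_le_pow_left₀ (by linarith) hy 2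
      have h5 : (σ w) ^ 2 * ρ₁ ^ 2 ≤ 1 * ρ₁ ^ 2 :=
        mul_le_mul_of_nonneg_right (pow_le_one₀ (σn w) (σl w)) (by positivity)
      linarith
    rw [Real.smoothTransition.one_of_one_le h3]
    have h6 : κ w • (expNegInvGlue (σ w) • σ w • u ((σ w)⁻¹ • y) w) = 0 := by
      rcases eq_or_lt_of_le (σn w) with h | h
      · rw [← h, expNegInvGlue.zero, zero_smul, smul_zero]
      · rw [hu0, smul_zero, smul_zero, smul_zero]
        rw [norm_smul, Real.norm_eq_abs, abs_of_pos (inv_pos.2 h)]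
        have h7 : 1 ≤ (σ w)⁻¹ := (one_le_inv₀ h).2 (σl w)
        nlinarith [norm_nonneg y]
    rw [h6, add_zero]
    have h8 : A w + (1 - A w) * 1 = 1 := by ring
    rw [h8, one_smul]
  · -- small w
    intro y w hw
    have hs := σ0 w (by linarith)
    have hA' : A w = 1 := by
      simp only [hA]
      rw [A₁1 w hw, hs, expNegInvGlue.zero, zero_mul, add_zero]
    simp only [hψ]
    rw [hA', hs, expNegInvGlue.zero, zero_smul, smul_zero, add_zero, sub_self, zero_mul, add_zero,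
      one_smul]
  · -- large w
    intro y w hw
    have hs := σ1 w (by linarith)
    have hA' : A w = 1 := by
      rw [hAs w (by rw [hs]; exact one_pos), hs, κ2 w hw, e_one, hee]
    simp only [hψ]
    rw [hA', hs, κ2 w hw, e_one, inv_one, one_smul, one_smul, smul_smul, mul_comm (Real.exp 1), hee,
      one_smul, sub_self, zero_mul, add_zero, one_smul]

end Pool.Agent.N550.TS.Int

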