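import Pool.Agent.N550.TS.Stm
import Pool.Agent.N550.KH.Hnd

/-!
# Project TS (helper550), part STR: good coordinates near the core disc of a 2-handle (helper919)
-/

set_option autoImplicit false

open Set Filter Topology Metric Function MeasureTheory
open scoped Manifold ContDiff

noncomputable section

namespace Pool.Agent.N550.TS.Str

open Pool.Agent.Y522 Pool.Agent.N550.KH Pool.Agent.N550.TS

theorem contDiff_jn (k : ℕ) : ContDiff ℝ ∞ (fun p : E 2 × E k => jn 2 k p.1 p.2) := by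
  rw [contDiff_euclidean]
  intro i
  refine Fin.addCases (fun i => ?_) (fun i => ?_) i
  · have h : (fun p : E 2 × E k => jn 2 k p.1 p.2 (Fin.castAdd k i)) = fun p => p.1 i := by
      funext p
      simp [jn]
    rw [h]
    have h2 : ContDiff ℝ ∞ (fun p : E 2 × E k => p.1) := contDiff_fst
    exact contDiff_euclidean.1 h2 i
  · have h : (fun p : E 2 × E k => jn 2 k p.1 p.2 (Fin.natAdd 2 i)) = fun p => p.2 i := by
      funext p
      simp [jn]
    rw [h]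
    have h2 : ContDiff ℝ ∞ (fun p : E 2 × E k => p.2) := contDiff_snd
    exact contDiff_euclidean.1 h2 i

theorem continuous_jn (k : ℕ) : Continuous (fun p : E 2 × E k => jn 2 k p.1 p.2) :=
  (contDiff_jn k).continuous

section eu

variable {k : ℕ} {V : Set (E (2 + k))} {P : E (2 + k) → E (2 + k)} {r₂ ρ : ℝ}

/-- the uniform neighbourhood of the disc -/
theorem tube (h2ρ : r₂ < ρ) (hρ1 : ρ < 1) (hV : IsOpen V) (hPs : ∀ z ∈ V, ContDiffAt ℝ ∞ P z)
    (hc : ∀ y : E 2, ‖y‖ ≤ 1 → jn 2 k y 0 ∈ V ∧ (ρ ≤ ‖y‖ → up 2 k (P (jn 2 k y 0)) = y) ∧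
      (‖y‖ ≤ ρ → ‖up 2 k (P (jn 2 k y 0))‖ ≤ ρ)) :
    ∃ δ : ℝ, 0 < δ ∧ ∀ w : E k, ‖w‖ < δ → ∀ y : E 2, ‖y‖ ≤ 1 → jn 2 k y w ∈ V ∧
      (ρ ≤ ‖y‖ → r₂ < ‖up 2 k (P (jn 2 k y w))‖) ∧ (‖y‖ ≤ ρ → ‖up 2 k (P (jn 2 k y w))‖ < 1) := by
  have hsw : Continuous (fun z : E k × E 2 => jn 2 k z.2 z.1) :=
    (continuous_jn k).comp (continuous_snd.prodMk continuous_fst)
  have key : ∀ᶠ w in 𝓝 (0 : E k), ∀ y ∈ closedBall (0 : E 2) 1, jn 2 k y w ∈ V ∧
      (ρ ≤ ‖y‖ → r₂ < ‖up 2 k (P (jn 2 k y w))‖) ∧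
      (‖y‖ ≤ ρ → ‖up 2 k (P (jn 2 k y w))‖ < 1) := by
    refine (isCompact_closedBall (0 : E 2) 1).eventually_forall_of_forall_eventually
      (P := fun w y => jn 2 k y w ∈ V ∧ (ρ ≤ ‖y‖ → r₂ < ‖up 2 k (P (jn 2 k y w))‖) ∧
        (‖y‖ ≤ ρ → ‖up 2 k (P (jn 2 k y w))‖ < 1)) ?_
    intro y hy
    rw [mem_closedBall_zero_iff] at hy
    obtain ⟨c1, c2, c3⟩ := hc y hy
    have hcont : ContinuousAt (fun z : E k × E 2 => ‖up 2 k (P (jn 2 k z.2 z.1))‖) (0, y) := by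
      have h1 : ContinuousAt (fun z : E k × E 2 => P (jn 2 k z.2 z.1)) (0, y) := by
        have h2 : ContinuousAt P (jn 2 k y 0) := (hPs _ c1).continuousAt
        exact ContinuousAt.comp (f := fun z : E k × E 2 => jn 2 k z.2 z.1) (x := ((0 : E k), y)) h2
          hsw.continuousAt
      exact ((up 2 k).continuous.norm.continuousAt).comp h1
    have hn : Continuous (fun z : E k × E 2 => ‖z.2‖) := continuous_snd.norm
    have e1 : ∀ᶠ z : E k × E 2 in 𝓝 (0, y), jn 2 k z.2 z.1 ∈ V :=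
      hsw.continuousAt.eventually (hV.mem_nhds c1)
    have e2 : ∀ᶠ z : E k × E 2 in 𝓝 (0, y), ρ ≤ ‖z.2‖ → r₂ < ‖up 2 k (P (jn 2 k z.2 z.1))‖ := by
      by_cases h : ρ ≤ ‖y‖
      · have h3 : r₂ < ‖up 2 k (P (jn 2 k y 0))‖ := by rw [c2 h]; linarith
        filter_upwards [continuousAt_const.eventually_lt hcont h3] with z hz _
        exact hz
      · push Not at h
        filter_upwards [hn.continuousAt.eventually_lt continuousAt_const h] with z hz hz2
        exact absurd hz (not_lt.2 hz2)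
    have e3 : ∀ᶠ z : E k × E 2 in 𝓝 (0, y), ‖z.2‖ ≤ ρ → ‖up 2 k (P (jn 2 k z.2 z.1))‖ < 1 := by
      by_cases h : ‖y‖ ≤ ρ
      · have h3 : ‖up 2 k (P (jn 2 k y 0))‖ < 1 := lt_of_le_of_lt (c3 h) hρ1
        filter_upwards [hcont.eventually_lt continuousAt_const h3] with z hz _
        exact hz
      · push Not at h
        filter_upwards [continuousAt_const.eventually_lt hn.continuousAt h] with z hz hz2
        exact absurd hz (not_lt.2 hz2)
    filter_upwards [e1, e2, e3] with z h1 h2 h3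
    exact ⟨h1, h2, h3⟩
  obtain ⟨δ, hδ, hball⟩ := Metric.eventually_nhds_iff.1 key
  exact ⟨δ, hδ, fun w hw y hy => hball (by rw [dist_zero_right]; exact hw) y
    (by rw [mem_closedBall_zero_iff]; exact hy)⟩

/-- the Euclidean part -/
theorem eu (h0 : 0 < r₂) (h1 : r₂ < 1) (hV : IsOpen V) (hPs : ∀ z ∈ V, ContDiffAt ℝ ∞ P z)
    (hPi : InjOn P V) (hPo : ∀ z ∈ V, ∀ s ∈ 𝓝 z, P '' s ∈ 𝓝 (P z))
    (hPv : ∀ z ∈ V, vp 2 k (P z) = vp 2 k z)
    (hPr : ∀ z ∈ V, r₂ ≤ ‖up 2 k (P z)‖ → up 2 k (P z) = up 2 k z)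
    (hc : ∀ y : E 2, ‖y‖ ≤ 1 → jn 2 k y 0 ∈ V ∧ ‖up 2 k (P (jn 2 k y 0))‖ ≤ 1 ∧
      (r₂ ≤ ‖y‖ → up 2 k (P (jn 2 k y 0)) = y)) :
    ∃ (u : E 2 → E k → E 2) (ρ ε : ℝ), 0 < ρ ∧ ρ < 1 ∧ 0 < ε ∧
      ContDiff ℝ ∞ (fun p : E 2 × E k => u p.1 p.2) ∧ (∀ y w, ρ ≤ ‖y‖ → u y w = 0) ∧
      (∀ y w, ‖y‖ ≤ 1 → ‖w‖ ≤ ε → jn 2 k y w ∈ V ∧ up 2 k (P (jn 2 k y w)) = y + u y w) ∧
      ∀ w, ‖w‖ ≤ ε → Bijective fun y => y + u y w := by
  classical
  obtain ⟨ρ, hρ⟩ : ∃ ρ : ℝ, ρ = (r₂ + 1) / 2 := ⟨_, rfl⟩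
  have h2ρ : r₂ < ρ := by rw [hρ]; linarith
  have hρ1 : ρ < 1 := by rw [hρ]; linarith
  have hρ0 : 0 < ρ := by linarith
  have hinj : ∀ (a b : E 2) (w : E k), jn 2 k a w ∈ V → jn 2 k b w ∈ V →
      up 2 k (P (jn 2 k a w)) = up 2 k (P (jn 2 k b w)) → a = b := by
    intro a b w ha hb hab
    have h3 : P (jn 2 k a w) = P (jn 2 k b w) := by
      rw [← jn_up_vp 2 k (P (jn 2 k a w)), ← jn_up_vp 2 k (P (jn 2 k b w)), hab, hPv _ ha, hPv _ hb,
        vp_jn, vp_jn]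
    have h4 := congrArg (up 2 k) (hPi ha hb h3)
    rwa [up_jn, up_jn] at h4
  have hcρ : ∀ y : E 2, ‖y‖ ≤ 1 → jn 2 k y 0 ∈ V ∧ (ρ ≤ ‖y‖ → up 2 k (P (jn 2 k y 0)) = y) ∧
      (‖y‖ ≤ ρ → ‖up 2 k (P (jn 2 k y 0))‖ ≤ ρ) := by
    intro y hy
    obtain ⟨c1, c2, c3⟩ := hc y hy
    refine ⟨c1, fun h => c3 (by linarith), fun h => ?_⟩
    by_contra hcon
    push Not at hcon
    obtain ⟨d1, d2, d3⟩ := hc _ c2
    have h3 := d3 (by linarith)
    have h4 := hinj _ _ 0 d1 c1 h3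
    rw [h4] at hcon
    linarith
  obtain ⟨δ, hδ, htube⟩ := tube h2ρ hρ1 hV hPs hcρ
  have hfix : ∀ (w : E k) (y : E 2), ‖w‖ < δ → ‖y‖ ≤ 1 → ρ ≤ ‖y‖ →
      up 2 k (P (jn 2 k y w)) = y := by
    intro w y hw hy hy2
    obtain ⟨t1, t2, -⟩ := htube w hw y hy
    rw [hPr _ t1 (t2 hy2).le, up_jn]
  let χ : ContDiffBump (0 : E k) := ⟨δ / 2, 3 / 4 * δ, by linarith, by linarith⟩
  have hχc : ContDiff ℝ ∞ χ := χ.contDiff
  have hχ1 : ∀ w : E k, ‖w‖ ≤ δ / 2 → χ w = 1 := fun w hw =>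
    χ.one_of_mem_closedBall (by rw [mem_closedBall_zero_iff]; exact hw)
  have hχ0 : ∀ w : E k, 3 / 4 * δ ≤ ‖w‖ → χ w = 0 := fun w hw =>
    χ.zero_of_le_dist (by rw [dist_zero_right]; exact hw)
  obtain ⟨u, hu⟩ : ∃ u : E 2 → E k → E 2, u = fun y w =>
      if ‖y‖ < 1 ∧ ‖w‖ < δ then χ w • (up 2 k (P (jn 2 k y w)) - y) else 0 := ⟨_, rfl⟩
  have hu1 : ∀ y w, ‖y‖ < 1 → ‖w‖ < δ → u y w = χ w • (up 2 k (P (jn 2 k y w)) - y) := by
    intro y w h3 h4
    rw [hu]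
    simp only [h3, h4, and_self, if_true]
  have hu0 : ∀ y w, ¬ (‖y‖ < 1 ∧ ‖w‖ < δ) → u y w = 0 := by
    intro y w h3
    rw [hu]
    simp only [h3, if_false]
  have huρ : ∀ y w, ρ ≤ ‖y‖ → u y w = 0 := by
    intro y w hy
    by_cases h3 : ‖y‖ < 1 ∧ ‖w‖ < δ
    · rw [hu1 y w h3.1 h3.2, hfix w y h3.2 h3.1.le hy, sub_self, smul_zero]
    · exact hu0 y w h3
  have huw : ∀ y w, 3 / 4 * δ ≤ ‖w‖ → u y w = 0 := by
    intro y w hw
    by_cases h3 : ‖y‖ < 1 ∧ ‖w‖ < δ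
    · rw [hu1 y w h3.1 h3.2, hχ0 w hw, zero_smul]
    · exact hu0 y w h3
  have huP : ∀ y w, ‖y‖ ≤ 1 → ‖w‖ ≤ δ / 2 → up 2 k (P (jn 2 k y w)) = y + u y w := by
    intro y w hy hw
    by_cases h3 : ρ ≤ ‖y‖
    · rw [huρ y w h3, add_zero]
      exact hfix w y (by linarith) hy h3
    · push Not at h3
      rw [hu1 y w (by linarith) (by linarith), hχ1 w hw, one_smul]
      abel
  have husm : ContDiff ℝ ∞ (fun p : E 2 × E k => u p.1 p.2) := by
    rw [contDiff_iff_contDiffAt]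
    rintro ⟨y, w⟩
    by_cases h3 : ‖y‖ < 1
    · by_cases h4 : ‖w‖ < δ
      · have h5 : (fun p : E 2 × E k => u p.1 p.2) =ᶠ[𝓝 (y, w)]
            fun p => χ p.2 • (up 2 k (P (jn 2 k p.1 p.2)) - p.1) := by
          have e1 : ∀ᶠ p : E 2 × E k in 𝓝 (y, w), ‖p.1‖ < 1 :=
            continuous_fst.norm.continuousAt.eventually_lt continuousAt_const h3
          have e2 : ∀ᶠ p : E 2 × E k in 𝓝 (y, w), ‖p.2‖ < δ :=
            continuous_snd.norm.continuousAt.eventually_lt continuousAt_const h4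
          filter_upwards [e1, e2] with p hp1 hp2
          exact hu1 p.1 p.2 hp1 hp2
        refine ContDiffAt.congr_of_eventuallyEq ?_ h5
        have h6 : ContDiffAt ℝ ∞ (fun p : E 2 × E k => P (jn 2 k p.1 p.2)) (y, w) := by
          have h7 := hPs _ (htube w h4 y h3.le).1
          exact ContDiffAt.comp (f := fun p : E 2 × E k => jn 2 k p.1 p.2) (y, w) h7
            (contDiff_jn k).contDiffAt
        have h8 : ContDiffAt ℝ ∞ (fun p : E 2 × E k => up 2 k (P (jn 2 k p.1 p.2))) (y, w) :=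
          (up 2 k).contDiff.contDiffAt.comp _ h6
        have h9 : ContDiffAt ℝ ∞ (fun p : E 2 × E k => χ p.2) (y, w) :=
          (hχc.comp contDiff_snd).contDiffAt
        exact h9.smul (h8.sub contDiff_fst.contDiffAt)
      · push Not at h4
        have h5 : (fun p : E 2 × E k => u p.1 p.2) =ᶠ[𝓝 (y, w)] fun _ => 0 := by
          have e2 : ∀ᶠ p : E 2 × E k in 𝓝 (y, w), 3 / 4 * δ < ‖p.2‖ :=
            continuousAt_const.eventually_lt continuous_snd.norm.continuousAt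
              (by change 3 / 4 * δ < ‖w‖; linarith)
          filter_upwards [e2] with p hp
          exact huw p.1 p.2 hp.le
        exact contDiffAt_const.congr_of_eventuallyEq h5
    · push Not at h3
      have h5 : (fun p : E 2 × E k => u p.1 p.2) =ᶠ[𝓝 (y, w)] fun _ => 0 := by
        have e2 : ∀ᶠ p : E 2 × E k in 𝓝 (y, w), ρ < ‖p.1‖ :=
          continuousAt_const.eventually_lt continuous_fst.norm.continuousAt
            (by change ρ < ‖y‖; linarith)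
        filter_upwards [e2] with p hp
        exact huρ p.1 p.2 hp.le
      exact contDiffAt_const.congr_of_eventuallyEq h5
  refine ⟨u, ρ, δ / 2, hρ0, hρ1, by linarith, husm, huρ, fun y w hy hw =>
    ⟨(htube w (by linarith) y hy).1, huP y w hy hw⟩, fun w hw => ?_⟩
  have hwδ : ‖w‖ < δ := by linarith
  have hg1 : ∀ y, ρ ≤ ‖y‖ → y + u y w = y := fun y hy => by rw [huρ y w hy, add_zero]
  have hg2 : ∀ y, ‖y‖ ≤ 1 → y + u y w = up 2 k (P (jn 2 k y w)) := fun y hy => (huP y w hy hw).symm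
  have hgc : Continuous fun y => y + u y w := by
    have h3 : Continuous fun y : E 2 => u y w :=
      husm.continuous.comp (continuous_id.prodMk continuous_const)
    exact continuous_id.add h3
  constructor
  · -- injectivity
    have hmix : ∀ a b : E 2, ‖a‖ ≤ 1 → 1 < ‖b‖ → a + u a w = b + u b w → a = b := by
      intro a b ha hb hab
      rw [hg1 b (by linarith)] at hab
      by_cases h3 : ρ ≤ ‖a‖
      · rw [hg1 a h3] at hab
        exact hab
      · push Not at h3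
        rw [hg2 a ha] at hab
        have h4 := (htube w hwδ a ha).2.2 h3.le
        rw [hab] at h4
        linarith
    intro a b hab
    change a + u a w = b + u b w at hab
    rcases le_or_gt ‖a‖ 1 with ha | ha
    · rcases le_or_gt ‖b‖ 1 with hb | hb
      · rw [hg2 a ha, hg2 b hb] at hab
        exact hinj a b w (htube w hwδ a ha).1 (htube w hwδ b hb).1 hab
      · exact hmix a b ha hb hab
    · rcases le_or_gt ‖b‖ 1 with hb | hb
      · exact (hmix b a hb ha hab.symm).symm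
      · rw [hg1 a (by linarith), hg1 b (by linarith)] at hab
        exact hab
  · -- surjectivity
    have hopen : IsOpen (range fun y => y + u y w) := by
      rw [isOpen_iff_mem_nhds]
      rintro _ ⟨y, rfl⟩
      by_cases h3 : ‖y‖ < 1
      · have hy : jn 2 k y w ∈ V := (htube w hwδ y h3.le).1
        have h4 : {z : E (2 + k) | z ∈ V ∧ ‖up 2 k z‖ < 1} ∈ 𝓝 (jn 2 k y w) := by
          refine Filter.inter_mem (hV.mem_nhds hy) ?_
          exact (isOpen_lt (up 2 k).continuous.norm continuous_const).mem_nhds (by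
            change ‖up 2 k (jn 2 k y w)‖ < 1
            rw [up_jn]
            exact h3)
        have h5 := hPo _ hy _ h4
        have h6 : P (jn 2 k y w) = jn 2 k (y + u y w) w := by
          rw [hg2 y h3.le]
          conv_lhs => rw [← jn_up_vp 2 k (P (jn 2 k y w)), hPv _ hy, vp_jn]
        rw [h6] at h5
        have h7 : Continuous fun q : E 2 => jn 2 k q w :=
          (continuous_jn k).comp (continuous_id.prodMk continuous_const)
        refine mem_of_superset (h7.continuousAt.preimage_mem_nhds h5) ?_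
        rintro q ⟨z, ⟨hz1, hz2⟩, hz3⟩
        have h8 : vp 2 k z = w := by
          rw [← hPv z hz1, hz3, vp_jn]
        refine ⟨up 2 k z, ?_⟩
        change up 2 k z + u (up 2 k z) w = q
        rw [hg2 _ hz2.le]
        have h9 : jn 2 k (up 2 k z) w = z := by rw [← h8, jn_up_vp]
        rw [h9, hz3, up_jn]
      · push Not at h3
        change range (fun y => y + u y w) ∈ 𝓝 (y + u y w)
        rw [hg1 y (by linarith)]
        have h4 : {z : E 2 | ρ < ‖z‖} ∈ 𝓝 y :=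
          (isOpen_lt continuous_const continuous_norm).mem_nhds (by change ρ < ‖y‖; linarith)
        refine mem_of_superset h4 fun z hz => ⟨z, hg1 z ?_⟩
        exact le_of_lt hz
    have hclosed : IsClosed (range fun y => y + u y w) := by
      have h3 : (range fun y => y + u y w) =
          (fun y => y + u y w) '' closedBall (0 : E 2) 1 ∪ {x | 1 ≤ ‖x‖} := by
        ext x
        constructor
        · rintro ⟨y, rfl⟩
          rcases le_or_gt ‖y‖ 1 with hy | hy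
          · left
            exact ⟨y, by rw [mem_closedBall_zero_iff]; exact hy, rfl⟩
          · right
            change 1 ≤ ‖y + u y w‖
            rw [hg1 y (by linarith)]
            exact hy.le
        · rintro (⟨y, -, rfl⟩ | hx)
          · exact ⟨y, rfl⟩
          · have hx' : 1 ≤ ‖x‖ := hx
            exact ⟨x, hg1 x (by linarith)⟩
      rw [h3]
      exact ((isCompact_closedBall _ _).image hgc).isClosed.union
        (isClosed_le continuous_const continuous_norm)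
    have h4 : (range fun y => y + u y w) = univ :=
      IsClopen.eq_univ ⟨hclosed, hopen⟩ ⟨_, mem_range_self 0⟩
    exact range_eq_univ.1 h4

end eu

theorem main : S_CORE → S_A2 → S_EXT → S_JN → S_STR := by
  classical
  intro hCORE hA2 hEXT hJN k M _ _ _ _ _ F hT h1 h2
  obtain ⟨j, hje, hjc, hjd, hjr⟩ := hCORE 2 k M F hT h1
  obtain ⟨r₀, hr0, hr01, hr⟩ := Hnd.exists_r0 hT h2
  have hjs : ∀ s, j s ∈ F.source ∧ vp 2 k (F (j s)) = 0 ∧ ‖up 2 k (F (j s))‖ < 2 := fun s => by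
    have : j s ∈ range j := ⟨s, rfl⟩
    rw [hjr] at this
    exact this
  have hsc : Continuous F.symm := by
    rw [← continuousOn_univ, ← hT]
    exact F.continuousOn_symm
  have hFj : Continuous fun s => F (j s) :=
    F.continuousOn.comp_continuous hje.continuous fun s => (hjs s).1
  -- the map `H`
  set H : E 2 → E 2 := fun s => up 2 k (F (j s)) with hH
  have hHc : Continuous H := (up 2 k).continuous.comp hFj
  have hFH : ∀ s, F (j s) = jn 2 k (H s) 0 := fun s => by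
    rw [← (hjs s).2.1, hH, jn_up_vp]
  have hHj : ∀ s, F.symm (Hnd.jl 2 k (H s)) = j s := fun s => by
    rw [Hnd.jl_apply, ← hFH]
    exact F.left_inv (hjs s).1
  have hHe : IsEmbedding H := by
    refine IsEmbedding.of_comp hHc (hsc.comp (Hnd.jl 2 k).continuous) ?_
    have : (F.symm ∘ (Hnd.jl 2 k)) ∘ H = j := by
      funext s
      exact hHj s
    rw [this]
    exact hje
  have hHr : range H = ball 0 2 := by
    ext w
    rw [mem_ball_zero_iff]
    constructor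
    · rintro ⟨s, rfl⟩
      exact (hjs s).2.2
    · intro hw
      have h3 : F (F.symm (jn 2 k w 0)) = jn 2 k w 0 := F.right_inv (by rw [hT]; trivial)
      have h4 : F.symm (jn 2 k w 0) ∈ range j := by
        rw [hjr]
        refine ⟨F.map_target (by rw [hT]; trivial), ?_, ?_⟩
        · rw [h3, vp_jn]
        · rw [h3, up_jn]
          exact hw
      obtain ⟨s, hs⟩ := h4
      refine ⟨s, ?_⟩
      rw [hH]
      simp only
      rw [hs, h3, up_jn]
  have hHo : IsOpenEmbedding H := ⟨hHe, by rw [hHr]; exact isOpen_ball⟩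
  have hHld : ∀ z, r₀ < ‖H z‖ → LD 2 H z := fun z hz =>
    Hnd.ld_H F j z hjc (hjd z) (hr _ (hjs z).1 (hjs z).2.1 hz) fun t => (hjs t).2.1
  -- the diffeomorphism `Θ`
  set r₁ : ℝ := (r₀ + 1) / 2 with hr₁
  have hr₁1 : r₁ < 1 := by rw [hr₁]; linarith
  have hr₀₁ : r₀ < r₁ := by rw [hr₁]; linarith
  obtain ⟨Θ, hΘi, hΘd, hΘr, hΘH⟩ := hA2 H r₀ r₁ hr0 hr₀₁ (by linarith) hHo hHr hHld
  have hΘc : ContDiff ℝ ∞ Θ := contDiff_iff_contDiffAt.2 fun z => (hΘd z).contDiffAt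
  have hback : ∀ s, r₁ ≤ ‖Θ s‖ → H s = Θ s := by
    intro s hs
    have h3 : Θ s ∈ range H := by
      rw [hHr, ← hΘr]
      exact ⟨s, rfl⟩
    obtain ⟨s', hs'⟩ := h3
    have h4 : Θ s' = H s' := hΘH s' (by rw [hs']; exact hs)
    have h5 : s' = s := hΘi (h4.trans hs')
    rw [← h5, h4]
  have hiff : ∀ s, ‖H s‖ ≤ 1 ↔ ‖Θ s‖ ≤ 1 := by
    intro s
    constructor
    · intro h
      by_contra hcon
      push Not at hcon
      rw [hback s (by linarith)] at h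
      linarith
    · intro h
      by_contra hcon
      push Not at hcon
      rw [hΘH s (by linarith)] at h
      linarith
  -- extension of `Θ`
  obtain ⟨R, hR⟩ : ∃ R : ℝ, ∀ s, ‖H s‖ ≤ 3 / 2 → ‖s‖ ≤ R := by
    have h3 : IsCompact (H ⁻¹' closedBall 0 (3 / 2)) := by
      refine hHe.isInducing.isCompact_preimage' (isCompact_closedBall _ _) ?_
      rw [hHr]
      exact closedBall_subset_ball (by norm_num)
    obtain ⟨R, hR⟩ := h3.isBounded.exists_norm_le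
    exact ⟨R, fun s hs => hR s (by
      rw [mem_preimage, mem_closedBall_zero_iff]
      exact hs)⟩
  obtain ⟨τ, hτc, hτ⟩ := hEXT 2 k M j hje.injective hjc hjd Θ hΘc R
  -- the cutoff function
  set r₂ : ℝ := (r₁ + 1) / 2 with hr₂
  have hr₂1 : r₂ < 1 := by rw [hr₂]; linarith
  have hr₁₂ : r₁ < r₂ := by rw [hr₂]; linarith
  have hr₂0 : 0 < r₂ := by linarith
  let φ : ContDiffBump (0 : E 2) := ⟨r₁, r₂, by linarith, hr₁₂⟩
  have hφc : ContDiff ℝ ∞ φ := φ.contDiff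
  have hφ1 : ∀ w : E 2, ‖w‖ ≤ r₁ → φ w = 1 := fun w hw =>
    φ.one_of_mem_closedBall (by rw [mem_closedBall_zero_iff]; exact hw)
  have hφ0 : ∀ w : E 2, r₂ ≤ ‖w‖ → φ w = 0 := fun w hw =>
    φ.zero_of_le_dist (by rw [dist_zero_right]; exact hw)
  -- the formula
  obtain ⟨T, hTdef⟩ : ∃ T : M → E 2, T = fun x =>
      φ (up 2 k (F x)) • τ x + (1 - φ (up 2 k (F x))) • up 2 k (F x) := ⟨_, rfl⟩
  have hTj : ∀ s, ‖H s‖ ≤ 3 / 2 → T (j s) = Θ s := by
    intro s hs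
    have h3 : T (j s) = φ (H s) • Θ s + (1 - φ (H s)) • H s := by
      rw [hTdef, ← hτ s (hR s hs)]
    rw [h3]
    by_cases h4 : r₁ ≤ ‖H s‖
    · rw [hΘH s h4, ← add_smul]
      simp
    · push Not at h4
      rw [hφ1 _ h4.le]
      simp
  have hTF : ∀ x, r₂ ≤ ‖up 2 k (F x)‖ → T x = up 2 k (F x) := by
    intro x hx
    rw [hTdef]
    simp only
    rw [hφ0 _ hx]
    simp
  obtain ⟨Ξ, hΞ⟩ : ∃ Ξ : M → E (2 + k), Ξ = fun x => jn 2 k (T x) (vp 2 k (F x)) := ⟨_, rfl⟩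
  have hΞa : ∀ x, Ξ x = jn 2 k (T x) (vp 2 k (F x)) := fun x => by rw [hΞ]
  have hΞj : ∀ s, ‖H s‖ ≤ 1 → Ξ (j s) = jn 2 k (Θ s) 0 := by
    intro s hs
    rw [hΞa, hTj s (by linarith), (hjs s).2.1]
  -- the core disc
  set D : Set M := F.symm '' {z : E (2 + k) | ‖up 2 k z‖ ≤ 1 ∧ ‖vp 2 k z‖ ≤ 0} with hD
  have hDc : IsCompact D := (Hnd.isCompact_Q 2 k 1 0).image hsc
  have hDmem : ∀ x ∈ F.source, vp 2 k (F x) = 0 → ‖up 2 k (F x)‖ ≤ 1 → x ∈ D :=
    fun x hx hv hu => ⟨F x, ⟨hu, by rw [hv, norm_zero]⟩, F.left_inv hx⟩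
  have hDj : ∀ x ∈ D, ∃ s, j s = x ∧ ‖H s‖ ≤ 1 := by
    rintro _ ⟨z, ⟨hz1, hz2⟩, rfl⟩
    have h3 : F (F.symm z) = z := F.right_inv (by rw [hT]; trivial)
    have hv : vp 2 k z = 0 := norm_le_zero_iff.1 hz2
    have h4 : F.symm z ∈ range j := by
      rw [hjr]
      refine ⟨F.map_target (by rw [hT]; trivial), ?_, ?_⟩
      · rw [h3, hv]
      · rw [h3]
        linarith
    obtain ⟨s, hs⟩ := h4
    refine ⟨s, hs, ?_⟩
    rw [hH]
    simp only
    rw [hs, h3]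
    exact hz1
  have hTsm : ∀ x, Sm (2 + k) F x → ∀ᶠ y in 𝓝 x, ContMDiffAt (𝓡 (2 + k)) (𝓡 2) ∞ T y := by
    intro x hx
    filter_upwards [hx] with y hy
    have hy1 : ContMDiffAt (𝓡 (2 + k)) (𝓡 2) ∞ (fun y => up 2 k (F y)) y :=
      (up 2 k).contMDiff.contMDiffAt.comp y hy
    have hy2 : ContMDiffAt (𝓡 (2 + k)) 𝓘(ℝ, ℝ) ∞ (fun y => φ (up 2 k (F y))) y :=
      hφc.contMDiff.contMDiffAt.comp y hy1
    rw [hTdef]
    exact (hy2.smul hτc.contMDiffAt).add ((contMDiffAt_const.sub hy2).smul hy1)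
  have hΞld : ∀ x ∈ D, LD (2 + k) Ξ x := by
    intro x hx
    obtain ⟨s, rfl, hs⟩ := hDj x hx
    have hsm := (h1 (j s) (hjs s).1 (hjs s).2.1 (hjs s).2.2).1
    rw [hΞ]
    refine hJN 2 k M j s T (fun x => vp 2 k (F x)) Θ hjc.contMDiffAt (hTsm _ hsm) ?_
      (h1 (j s) (hjs s).1 (hjs s).2.1 (hjs s).2.2).2 (Eventually.of_forall fun t => (hjs t).2.1)
      ?_ (hΘd s)
    · filter_upwards [hsm] with y hy
      exact (vp 2 k).contMDiff.contMDiffAt.comp y hy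
    · have h5 : ∀ᶠ t in 𝓝 s, ‖H t‖ < 3 / 2 :=
        hHc.norm.continuousAt.eventually_lt continuousAt_const (by
          change ‖H s‖ < 3 / 2
          linarith)
      filter_upwards [h5] with t ht
      exact hTj t ht.le
  have hΞinj : InjOn Ξ D := by
    intro x hx y hy hxy
    obtain ⟨s, rfl, hs⟩ := hDj x hx
    obtain ⟨t, rfl, ht⟩ := hDj y hy
    rw [hΞj s hs, hΞj t ht] at hxy
    have h3 := congrArg (up 2 k) hxy
    rw [up_jn, up_jn] at h3
    rw [hΘi h3]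
  obtain ⟨O, hO, hDO, hOinj⟩ := hΞinj.exists_isOpen_superset hDc
    (fun x hx => (hΞld x hx).continuousAt) (fun x hx => (hΞld x hx).eventually_injOn)
  -- the neighbourhood `W`
  obtain ⟨W, hWdef⟩ : ∃ W : Set M, W = O ∩ interior {x | x ∈ F.source ∧ Sm (2 + k) F x ∧
      ContMDiffAt (𝓡 (2 + k)) (𝓡 2) ∞ T x ∧ LD (2 + k) Ξ x} := ⟨_, rfl⟩
  have hWo : IsOpen W := by rw [hWdef]; exact hO.inter isOpen_interior
  have hWp : ∀ x ∈ W, x ∈ F.source ∧ Sm (2 + k) F x ∧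
      ContMDiffAt (𝓡 (2 + k)) (𝓡 2) ∞ T x ∧ LD (2 + k) Ξ x := by
    intro x hx
    rw [hWdef] at hx
    have h3 : x ∈ {x | x ∈ F.source ∧ Sm (2 + k) F x ∧
      ContMDiffAt (𝓡 (2 + k)) (𝓡 2) ∞ T x ∧ LD (2 + k) Ξ x} := interior_subset hx.2
    exact h3
  have hWi : InjOn Ξ W := hOinj.mono (by rw [hWdef]; exact inter_subset_left)
  have hDW : D ⊆ W := by
    intro x hx
    rw [hWdef]
    refine ⟨hDO hx, ?_⟩
    rw [mem_interior_iff_mem_nhds]
    have hld := hΞld x hx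
    obtain ⟨s, rfl, hs⟩ := hDj x hx
    have hsm := (h1 (j s) (hjs s).1 (hjs s).2.1 (hjs s).2.2).1
    filter_upwards [F.open_source.mem_nhds (hjs s).1, eventually_eventually_nhds.2 hsm, hTsm _ hsm,
      hld.eventually] with y a1 a2 a3 a4
    exact ⟨a1, a2, a3, a4⟩
  -- the map `P`
  have : Nonempty M := ⟨j 0⟩
  obtain ⟨Ψ, hΨ⟩ : ∃ Ψ : E (2 + k) → M, ∀ x ∈ W, Ψ (Ξ x) = x :=
    ⟨invFunOn Ξ W, fun x hx => hWi.leftInvOn_invFunOn hx⟩
  have hΨd : ∀ x ∈ W, LD (2 + k) Ψ (Ξ x) := fun x hx =>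
    LD.inverse hWo (fun y hy => (hWp y hy).2.2.2) hΨ hx
  have hVo : IsOpen (Ξ '' W) := isOpen_image_of_LD hWo fun y hy => (hWp y hy).2.2.2
  obtain ⟨u, ρ, ε, e1, e2, e3, e4, e5, e6, e7⟩ := eu (k := k) (V := Ξ '' W)
    (P := fun z => F (Ψ z)) (r₂ := r₂) hr₂0 hr₂1 hVo
    (by
      rintro _ ⟨x, hx, rfl⟩
      have h3 : ContMDiffAt (𝓡 (2 + k)) (𝓡 (2 + k)) ∞ F (Ψ (Ξ x)) := by
        rw [hΨ x hx]
        exact (hWp x hx).2.1.self_of_nhds
      exact contMDiffAt_iff_contDiffAt.1 (h3.comp _ (hΨd x hx).contMDiffAt))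
    (by
      rintro _ ⟨x, hx, rfl⟩ _ ⟨y, hy, rfl⟩ hxy
      simp only [hΨ x hx, hΨ y hy] at hxy
      rw [F.injOn (hWp x hx).1 (hWp y hy).1 hxy])
    (by
      rintro _ ⟨x, hx, rfl⟩ s hs
      have h3 := (hΨd x hx).image_mem_nhds hs
      rw [hΨ x hx] at h3
      have h4 := F.image_mem_nhds (hWp x hx).1 h3
      simp only [hΨ x hx]
      rw [image_image] at h4
      exact h4)
    (by
      rintro _ ⟨x, hx, rfl⟩
      simp only [hΨ x hx]
      rw [hΞa, vp_jn])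
    (by
      rintro _ ⟨x, hx, rfl⟩ h3
      simp only [hΨ x hx] at h3 ⊢
      rw [hΞa, up_jn, hTF x h3])
    (by
      intro y hy
      have h3 : y ∈ range Θ := by
        rw [hΘr, mem_ball_zero_iff]
        linarith
      obtain ⟨s, rfl⟩ := h3
      have h4 : ‖H s‖ ≤ 1 := (hiff s).2 hy
      have h5 : j s ∈ W := hDW (hDmem _ (hjs s).1 (hjs s).2.1 h4)
      have h6 : Ψ (jn 2 k (Θ s) 0) = j s := by rw [← hΞj s h4]; exact hΨ _ h5
      refine ⟨⟨j s, h5, hΞj s h4⟩, ?_, ?_⟩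
      · rw [h6]
        exact h4
      · intro h7
        rw [h6]
        exact hback s (by linarith))
  refine ⟨T, u, ρ, ε, W, e1, e2, e3, hWo, fun x hx => (hWp x hx).1, fun x hx => (hWp x hx).2.1,
    fun x hx => (hWp x hx).2.2.1, ?_, ?_, ?_, e4, e5, ?_, e7, ?_⟩
  · intro x hx
    have h3 := (hWp x hx).2.2.2
    rw [hΞ] at h3
    exact h3
  · rw [hΞ] at hWi
    exact hWi
  · intro y w hy hw
    obtain ⟨x, hx, hxy⟩ := (e6 y w hy hw).1
    rw [hΞa] at hxy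
    refine ⟨x, hx, ?_, ?_⟩
    · have := congrArg (up 2 k) hxy
      rwa [up_jn, up_jn] at this
    · have := congrArg (vp 2 k) hxy
      rwa [vp_jn, vp_jn] at this
  · intro x hx hTx hvx
    have h3 := (e6 (T x) (vp 2 k (F x)) hTx hvx).2
    rw [← hΞa, hΨ x hx] at h3
    exact h3
  · intro x hx hv hu
    have hxD := hDmem x hx hv hu
    refine ⟨hDW hxD, ?_⟩
    obtain ⟨s, rfl, hs⟩ := hDj x hxD
    rw [hTj s (by linarith)]
    exact (hiff s).1 hs

end Pool.Agent.N550.TS.Str
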