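import Pool.Agent.N550.TS.Stm
import Pool.Agent.N550.KH.Two

/-!
# Project TS: the 2-handles, with homeomorphisms
-/

set_option autoImplicit false

open Set Filter Topology Metric Function MeasureTheory
open scoped Manifold ContDiff

noncomputable section

namespace Pool.Agent.N550.TS.Two2

open Pool.Agent.Y522 Pool.Agent.N550.KH Pool.Agent.N550.KH.Two

/-- **The 2-handles.** -/
theorem main : S_VS → S_SUPP → S_REG → S_HND2 → S_TWO2 := by
  intro hVS hSU hRG hHN k a M N _ _ _ _ _ _ _ _ _ _ f₀ h K hk hN₀ hi hl hK hd hf₀ hKc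
  classical
  obtain ⟨f, hN, hf, hP⟩ := all hVS hSU hRG hk f₀ h K hN₀ hi hl hK hd hf₀ Finset.univ
  -- the handle coordinates
  obtain ⟨F, hF⟩ : ∃ F : ∀ i : Fin a, OpenPartialHomeomorph M (E (2 + k)),
      ∀ i, F i = Fp f (h i) (hi i) (hl i) := ⟨_, fun _ => rfl⟩
  have hFa : ∀ i x, F i x = invFun (h i) (f x) := fun i x => by rw [hF]; rfl
  have hFs : ∀ i x, x ∈ (F i).source ↔ f x ∈ range (h i) := fun i x => by rw [hF]; exact Iff.rfl
  have hFt : ∀ i, (F i).target = univ := fun i => by rw [hF]; rfl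
  have hFc : ∀ i, ((F i : OpenPartialHomeomorph M (E (2 + k))) : M → E (2 + k)) =
      fun x => invFun (h i) (f x) := fun i => funext fun x => hFa i x
  have hFh : ∀ i x, x ∈ (F i).source → h i (F i x) = f x := by
    intro i x hx
    rw [hFa]
    exact app_inv ((hFs i x).mp hx)
  have hdis : ∀ i j x, x ∈ (F i).source → x ∈ (F j).source → i = j := by
    intro i j x hx hy
    by_contra hij
    obtain ⟨z, hz⟩ := (hFs i x).mp hx
    obtain ⟨w, hw⟩ := (hFs j x).mp hy
    exact hd i j z w hij (hz.trans hw.symm)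
  -- the modification near the cores
  have hnd : ∀ i, ∃ (F' : OpenPartialHomeomorph M (E (2 + k))) (C : Set M),
      F'.source = (F i).source ∧ F'.target = univ ∧ IsCompact C ∧ C ⊆ (F i).source ∧
      (∀ x ∈ C, Sm (2 + k) (F i) x ∧ ‖up 2 k (F i x)‖ < 1) ∧
      (∀ x ∈ (F i).source, x ∉ C → F' x = F i x) ∧
      (∀ x ∈ (F i).source, Sm (2 + k) (F i) x → Sm (2 + k) F' x) ∧
      ∀ x ∈ (F i).source, vp 2 k (F' x) = 0 → ‖up 2 k (F' x)‖ ≤ 1 → LD (2 + k) F' x := by
    intro i
    refine hHN k M (F i) (hFt i) (fun x hx h1 h2 => ?_) (fun x hx h1 h2 => ?_)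
    · have hx' := (hFs i x).mp hx
      rw [hFa] at h1 h2
      have := hP i (Finset.mem_univ i) x hx' h1 h2
      rw [hFc]
      exact this
    · have h3 : f x ∈ K := by
        rw [← hFh i x hx, hK]
        exact h2
      rw [hFc]
      obtain ⟨z, hz⟩ := (hFs i x).mp hx
      exact LD.comp_fun (g := invFun (h i)) (hz ▸ ld_inv (hi i) (hl i) z) (hf x h3)
  choose F' C s1 s2 c1 c2 c3 c4 c5 c6 using hnd
  -- the map
  obtain ⟨g, hg1, hg2⟩ : ∃ g : M → N, (∀ i x, x ∈ C i → g x = h i (F' i x)) ∧
      ∀ x, (∀ i, x ∉ C i) → g x = f x := by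
    refine ⟨fun x => if hx : ∃ i, x ∈ C i then h hx.choose (F' hx.choose x) else f x, ?_, ?_⟩
    · intro i x hx
      have hex : ∃ i, x ∈ C i := ⟨i, hx⟩
      simp only
      rw [dif_pos hex]
      have h1 : hex.choose = i := hdis _ _ x (c2 _ hex.choose_spec) (c2 _ hx)
      rw [h1]
    · intro x hx
      simp only
      rw [dif_neg (fun ⟨i, hi⟩ => hx i hi)]
  have hgs : ∀ i x, x ∈ (F i).source → g x = h i (F' i x) := by
    intro i x hx
    by_cases hxC : x ∈ C i
    · exact hg1 i x hxC
    · rw [hg2 x (fun j hj => by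
        have := hdis i j x hx (c2 j hj)
        rw [← this] at hj
        exact hxC hj), c4 i x hx hxC, hFh i x hx]
  have hgout : ∀ x, (∀ i, x ∉ (F i).source) → g x = f x := fun x hx =>
    hg2 x fun i hiC => hx i (c2 i hiC)
  have hCcl : IsClosed (⋃ i, C i) := isClosed_iUnion_of_finite fun i => (c1 i).isClosed
  have hgev : ∀ x, (∀ i, x ∉ C i) → g =ᶠ[𝓝 x] f := by
    intro x hx
    have h2 : x ∈ (⋃ i, C i)ᶜ := by
      rw [mem_compl_iff, mem_iUnion]
      rintro ⟨i, hiC⟩
      exact hx i hiC
    filter_upwards [hCcl.isOpen_compl.mem_nhds h2] with y hy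
    exact hg2 y fun i hiC => hy (mem_iUnion.mpr ⟨i, hiC⟩)
  have hgsev : ∀ i x, x ∈ (F i).source → g =ᶠ[𝓝 x] fun y => h i (F' i y) := by
    intro i x hx
    filter_upwards [(F i).open_source.mem_nhds hx] with y hy
    exact hgs i y hy
  have hgr : ∀ i x, g x ∈ range (h i) → x ∈ (F i).source := by
    intro i x hx
    by_cases hex : ∃ j, x ∈ (F j).source
    · obtain ⟨j, hj⟩ := hex
      rw [hgs j x hj] at hx
      obtain ⟨z, hz⟩ := hx
      by_cases hij : i = j
      · rw [hij]
        exact hj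
      · exact absurd hz (hd i j _ _ hij)
    · rw [hgout x (fun j hj => hex ⟨j, hj⟩)] at hx
      exact (hFs i x).mpr hx
  have hF'inj : ∀ i, InjOn (F' i) (F i).source := fun i => by rw [← s1 i]; exact (F' i).injOn
  have hgc : Continuous g := by
    rw [continuous_iff_continuousAt]
    intro x
    by_cases hex : ∃ j, x ∈ (F j).source
    · obtain ⟨j, hj⟩ := hex
      have h1 : ContinuousAt (F' j) x := (F' j).continuousAt (by rw [s1]; exact hj)
      exact ContinuousAt.congr (ContinuousAt.comp (g := h j) (f := F' j)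
        (hl j _).continuousAt h1) (hgsev j x hj).symm
    · exact ContinuousAt.congr f.continuous.continuousAt
        (hgev x (fun i hiC => hex ⟨i, c2 i hiC⟩)).symm
  have hginj : Injective g := by
    intro x y hxy
    by_cases hex : ∃ j, x ∈ (F j).source
    · obtain ⟨j, hj⟩ := hex
      have hy : y ∈ (F j).source := by
        apply hgr
        rw [← hxy, hgs j x hj]
        exact mem_range_self _
      rw [hgs j x hj, hgs j y hy] at hxy
      exact hF'inj j hj hy (hi j hxy)
    · have hey : ∀ j, y ∉ (F j).source := by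
        intro j hj
        apply hex
        refine ⟨j, hgr j x ?_⟩
        rw [hxy, hgs j y hj]
        exact mem_range_self _
      rw [hgout x (fun j hj => hex ⟨j, hj⟩), hgout y hey] at hxy
      exact f.injective hxy
  have hgsurj : Surjective g := by
    intro w
    by_cases hex : ∃ i, w ∈ range (h i)
    · obtain ⟨i, z, rfl⟩ := hex
      have hz : z ∈ (F' i).target := by rw [s2]; trivial
      refine ⟨(F' i).symm z, ?_⟩
      have h1 : (F' i).symm z ∈ (F i).source := by rw [← s1]; exact (F' i).map_target hz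
      rw [hgs i _ h1, (F' i).right_inv hz]
    · refine ⟨f.symm w, ?_⟩
      have h1 : ∀ i, f.symm w ∉ (F i).source := by
        intro i h2
        rw [hFs, f.apply_symm_apply] at h2
        exact hex ⟨i, h2⟩
      rw [hgout _ h1, f.apply_symm_apply]
  let f' : M ≃ₜ N :=
    Continuous.homeoOfEquivCompactToT2 (f := Equiv.ofBijective g ⟨hginj, hgsurj⟩) hgc
  have hf' : (f' : M → N) = g := rfl
  have hlld : ∀ i x, x ∈ (F i).source → LD (2 + k) (F' i) x → LD (2 + k) g x := fun i x hx h1 =>
    LD.congr (LD.comp_fun (g := h i) (f := F' i) (hl i _) h1) (hgsev i x hx)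
  have hlsm : ∀ i x, x ∈ (F i).source → Sm (2 + k) (F' i) x → Sm (2 + k) g x := fun i x hx h1 =>
    Sm.congr' (Sm.comp_ld h1 (hl i _)) (hgsev i x hx)
  refine ⟨f', ?_, ?_⟩
  · refine NullH.mono hN ?_
    rintro _ ⟨x, hx, rfl⟩
    rw [hf'] at hx ⊢
    have hxC : ∀ i, x ∉ C i := fun i hiC =>
      hx (hlsm i x (c2 i hiC) (c5 i x (c2 i hiC) (c3 i x hiC).1))
    refine ⟨x, ?_, (hg2 x hxC).symm⟩
    intro hs
    exact hx (Sm.congr' hs (hgev x hxC))
  · intro x hx
    rw [hf'] at hx ⊢
    rcases hx with hx | hx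
    · have hxC : ∀ i, x ∉ C i := by
        intro i hiC
        have hxs := c2 i hiC
        rw [hgs i x hxs, hK] at hx
        have hz : F' i x ∈ (F i).target := by rw [hFt]; exact mem_univ _
        have h1 : (F i).symm (F' i x) ∈ (F i).source := (F i).map_target hz
        have h2 : F i ((F i).symm (F' i x)) = F' i x := (F i).right_inv hz
        have h3 : (F i).symm (F' i x) ∈ C i := by
          by_contra h4
          have h5 : F' i ((F i).symm (F' i x)) = F' i x := by rw [c4 i _ h1 h4, h2]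
          have h6 := hF'inj i h1 hxs h5
          rw [h6] at h4
          exact h4 hiC
        have h7 := (c3 i _ h3).2
        rw [h2] at h7
        linarith
      have h1 : f x ∈ K := by
        rw [← hg2 x hxC]
        exact hx
      exact (hf x h1).congr (hgev x hxC)
    · rw [mem_iUnion] at hx
      obtain ⟨i, z, ⟨hz1, hz2⟩, hz⟩ := hx
      have hxs : x ∈ (F i).source := hgr i x ⟨z, hz⟩
      rw [hgs i x hxs] at hz
      have h1 : F' i x = z := (hi i hz).symm
      exact hlld i x hxs (c6 i x hxs (by rw [h1]; exact hz1) (by rw [h1]; exact hz2))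

end Pool.Agent.N550.TS.Two2
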