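import Pool.Agent.N550.KH.All
import Pool.Agent.N550.TS.Flat
import Pool.Agent.N550.TS.Int
import Pool.Agent.N550.TS.Str
import Pool.Agent.N550.TS.Hnd2
import Pool.Agent.N550.TS.Two2
import Pool.Agent.N550.TS.Fin2

/-!
# Project TS: the theorem
-/

set_option autoImplicit false

namespace Pool.Agent.N550.TS

open Pool.Agent.N550.KH

theorem str : S_STR := Str.main Core.main a2 Ext.main Jn.main

theorem int : S_INT := Int.main Flat.main

theorem hnd2 : S_HND2 := Hnd2.main str int

theorem two2 : S_TWO2 := Two2.main Shift.main.2.1 Supp.main Reg.main hnd2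

theorem fin2 : S_FIN2 := Fin2.main Null.main zero one two2 Cell.main asm

end Pool.Agent.N550.TS
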