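import Pool.Agent.N550.TS.All
import Pool.Agent.N550.TS.Flt
import Pool.Agent.N550.TS.Flm

/-!
# Project TS: the theorem, second part
-/

set_option autoImplicit false

namespace Pool.Agent.N550.TS

theorem flm : S_FLM := Flm.main Flt.main

end Pool.Agent.N550.TS
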