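import Pool.Agent.N550.TS.Stm3
import Pool.Agent.N550.CQ.Pcs

/-!
# Project TS: flattening at an isolated singular point, target `S¹ × S³`
-/

set_option autoImplicit false

open Set Filter Topology Metric Function MeasureTheory
open scoped Manifold ContDiff

noncomputable section

namespace Pool.Agent.N550.TS.Flp

open Pool.Agent.Y522 Pool.Agent.N550.SH Pool.Agent.N550.KH Pool.Agent.N550.TS

/-! ### The radial map -/

section radial

variable {n : ℕ} {θ : ℝ → ℝ}

/-- the radial map -/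
def rd (θ : ℝ → ℝ) (v : E n) : E n := θ (‖v‖ ^ 2) • v

theorem rd_zero (θ : ℝ → ℝ) : rd θ (0 : E n) = 0 := by simp [rd]

theorem rd_norm (h0 : ∀ s, 0 < s → 0 < θ s) (v : E n) : ‖rd θ v‖ = θ (‖v‖ ^ 2) * ‖v‖ := by
  rcases eq_or_ne v 0 with rfl | hv
  · simp [rd]
  · have hv' : 0 < ‖v‖ := norm_pos_iff.2 hv
    rw [rd, norm_smul, Real.norm_of_nonneg (h0 _ (by positivity)).le]

theorem rd_lt (h0 : ∀ s, 0 < s → 0 < θ s) (hm : Monotone θ) (v w : E n) (hvw : ‖v‖ < ‖w‖) :
    ‖rd θ v‖ < ‖rd θ w‖ := by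
  rw [rd_norm h0, rd_norm h0]
  have hw : 0 < ‖w‖ := (norm_nonneg v).trans_lt hvw
  have hθw : 0 < θ (‖w‖ ^ 2) := h0 _ (by positivity)
  have h1 : θ (‖v‖ ^ 2) ≤ θ (‖w‖ ^ 2) := hm (by gcongr)
  calc θ (‖v‖ ^ 2) * ‖v‖ ≤ θ (‖w‖ ^ 2) * ‖v‖ := mul_le_mul_of_nonneg_right h1 (norm_nonneg v)
    _ < θ (‖w‖ ^ 2) * ‖w‖ := mul_lt_mul_of_pos_left hvw hθw

theorem rd_inj (h0 : ∀ s, 0 < s → 0 < θ s) (hm : Monotone θ) :
    Injective (rd θ : E n → E n) := by
  intro v w h
  have hn : ‖v‖ = ‖w‖ := by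
    rcases lt_trichotomy ‖v‖ ‖w‖ with h1 | h1 | h1
    · exact absurd (congrArg norm h) (rd_lt h0 hm v w h1).ne
    · exact h1
    · exact absurd (congrArg norm h) (rd_lt h0 hm w v h1).ne'
  rcases eq_or_ne w 0 with rfl | hw
  · rw [norm_zero, norm_eq_zero] at hn
    exact hn
  · have hw' : 0 < ‖w‖ := norm_pos_iff.2 hw
    have h2 : θ (‖w‖ ^ 2) • v = θ (‖w‖ ^ 2) • w := by
      have h3 := h
      unfold rd at h3
      rwa [hn] at h3
    exact smul_right_injective _ (h0 _ (by positivity)).ne' h2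

theorem rd_surj (hc : Continuous θ) (h1 : ∀ s, 1 ≤ s → θ s = 1) :
    Surjective (rd θ : E n → E n) := by
  intro w
  rcases eq_or_ne w 0 with rfl | hw
  · exact ⟨0, rd_zero θ⟩
  · have hw' : 0 < ‖w‖ := norm_pos_iff.2 hw
    set R : ℝ := max 1 ‖w‖ with hR
    have hR1 : 1 ≤ R := le_max_left _ _
    have hcr : ContinuousOn (fun s : ℝ => θ (s ^ 2) * s) (Icc 0 R) := by fun_prop
    have hmem : ‖w‖ ∈ Icc ((fun s : ℝ => θ (s ^ 2) * s) 0) ((fun s : ℝ => θ (s ^ 2) * s) R) := by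
      constructor
      · simp
      · show ‖w‖ ≤ θ (R ^ 2) * R
        rw [h1 _ (by nlinarith), one_mul]
        exact le_max_right _ _
    obtain ⟨s, hs, hsw⟩ := intermediate_value_Icc (by linarith) hcr hmem
    refine ⟨(s / ‖w‖) • w, ?_⟩
    have hn : ‖(s / ‖w‖) • w‖ = s := by
      rw [norm_smul, norm_div, norm_norm, Real.norm_of_nonneg hs.1]
      field_simp
    unfold rd
    rw [hn, smul_smul]
    have h4 : θ (s ^ 2) * (s / ‖w‖) = 1 := by
      have h3 : θ (s ^ 2) * s = ‖w‖ := hsw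
      rw [← mul_div_assoc, h3, div_self hw'.ne']
    rw [h4, one_smul]

theorem rd_out (h1 : ∀ s, 1 ≤ s → θ s = 1) (v : E n) (hv : 1 ≤ ‖v‖) : rd θ v = v := by
  unfold rd
  rw [h1 _ (by nlinarith), one_smul]

theorem rd_smooth (hs : ContDiff ℝ ∞ θ) : ContDiff ℝ ∞ (rd θ : E n → E n) :=
  (hs.comp (contDiff_norm_sq ℝ)).smul contDiff_id

end radial

/-! ### General targets -/

section gen

variable {n : ℕ} {E' H' : Type} [NormedAddCommGroup E'] [NormedSpace ℝ E'] [TopologicalSpace H']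
  {I : ModelWithCorners ℝ E' H'} {N : Type} [TopologicalSpace N] [CompactSpace N] [T2Space N]
  [ChartedSpace H' N]

theorem exists_Psi (P : OpenPartialHomeomorph N (E n)) (hP : P.target = univ)
    (h1 : ∀ u ∈ P.source, ContMDiffAt I (𝓡 n) ∞ P u)
    (h2 : ∀ z, ContMDiffAt (𝓡 n) I ∞ P.symm z)
    (ψ : E n → E n) (hψ : Bijective ψ) (hψs : ContDiff ℝ ∞ ψ) (hψ1 : ∀ v, 1 ≤ ‖v‖ → ψ v = v) :
    ∃ Ψ : N ≃ₜ N, ContMDiff I I ∞ Ψ ∧ ∀ y ∈ P.source, Ψ y = P.symm (ψ (P y)) := by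
  classical
  have htm : ∀ z, z ∈ P.target := fun z => by rw [hP]; trivial
  set K : N → N := fun y => if y ∈ P.source then P.symm (ψ (P y)) else y with hK
  have hKin : ∀ y ∈ P.source, K y = P.symm (ψ (P y)) := fun y hy => if_pos hy
  have hKout : ∀ y, y ∉ P.source → K y = y := fun y hy => if_neg hy
  have hKs : ∀ y ∈ P.source, K y ∈ P.source := fun y hy => by
    rw [hKin y hy]
    exact P.map_target (htm _)
  have hPK : ∀ y ∈ P.source, P (K y) = ψ (P y) := fun y hy => by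
    rw [hKin y hy]
    exact P.right_inv (htm _)
  have hbij : Bijective K := by
    constructor
    · intro y z h
      by_cases hy : y ∈ P.source <;> by_cases hz : z ∈ P.source
      · apply P.injOn hy hz
        apply hψ.1
        rw [← hPK y hy, ← hPK z hz, h]
      · exfalso
        apply hz
        rw [hKout z hz] at h
        rw [← h]
        exact hKs y hy
      · exfalso
        apply hy
        rw [hKout y hy] at h
        rw [h]
        exact hKs z hz
      · rwa [hKout y hy, hKout z hz] at h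
    · intro z
      by_cases hz : z ∈ P.source
      · obtain ⟨v, hv⟩ := hψ.2 (P z)
        refine ⟨P.symm v, ?_⟩
        rw [hKin _ (P.map_target (htm v)), P.right_inv (htm v), hv, P.left_inv hz]
      · exact ⟨z, hKout z hz⟩
  have hsm : ContMDiff I I ∞ K := by
    intro y
    by_cases hy : y ∈ P.source
    · have h3 : ContMDiffAt I I ∞ (fun y => P.symm (ψ (P y))) y :=
        ContMDiffAt.comp (g := P.symm) y (h2 _)
          (ContMDiffAt.comp (g := ψ) y hψs.contMDiff.contMDiffAt (h1 y hy))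
      refine h3.congr_of_eventuallyEq ?_
      filter_upwards [P.open_source.mem_nhds hy] with w hw
      exact hKin w hw
    · have hC : IsClosed (P.symm '' closedBall 0 1) := by
        refine ((isCompact_closedBall (0 : E n) 1).image_of_continuousOn ?_).isClosed
        exact P.symm.continuousOn.mono (fun z _ => htm z)
      have hyC : y ∈ (P.symm '' closedBall 0 1)ᶜ := by
        rintro ⟨z, -, rfl⟩
        exact hy (P.map_target (htm z))
      refine contMDiffAt_id.congr_of_eventuallyEq ?_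
      filter_upwards [hC.isOpen_compl.mem_nhds hyC] with w hw
      by_cases hws : w ∈ P.source
      · have h4 : 1 ≤ ‖P w‖ := by
          by_contra hcon
          apply hw
          refine ⟨P w, ?_, P.left_inv hws⟩
          rw [mem_closedBall_zero_iff]
          linarith
        rw [hKin w hws, hψ1 _ h4, P.left_inv hws]
        rfl
      · exact hKout w hws
  exact ⟨Continuous.homeoOfEquivCompactToT2 (f := Equiv.ofBijective K hbij) hsm.continuous, hsm,
    hKin⟩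

theorem gen (h : S_FLT) (P : OpenPartialHomeomorph N (E n)) (hP : P.target = univ)
    (h1 : ∀ u ∈ P.source, ContMDiffAt I (𝓡 n) ∞ P u)
    (h2 : ∀ z, ContMDiffAt (𝓡 n) I ∞ P.symm z) {M : Type} [TopologicalSpace M]
    [ChartedSpace (E n) M] [IsManifold (𝓡 n) ∞ M] (F : M ≃ₜ N) (x₀ : M)
    (hx : F x₀ ∈ P.source) (hx0 : P (F x₀) = 0)
    (hF : ∀ x, x ≠ x₀ → ContMDiffAt (𝓡 n) I ∞ F x) :
    ∃ f : M ≃ₜ N, ContMDiff (𝓡 n) I ∞ f := by
  obtain ⟨a, ha, haL, ha0⟩ := Pool.Agent.N550.CQ.Pcs.exists_cell (n := n) x₀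
  set g : E n → E n := fun z => P (F (a z)) with hg
  set W : Set (E n) := (fun z => F (a z)) ⁻¹' P.source with hW
  have hac : Continuous a := continuous_iff_continuousAt.2 fun z => (haL z).continuousAt
  have hFa : Continuous (fun z => F (a z)) := F.continuous.comp hac
  have hWo : IsOpen W := P.open_source.preimage hFa
  have h0W : (0 : E n) ∈ W := by
    show F (a 0) ∈ P.source
    rw [ha0]
    exact hx
  have hgc : ContinuousOn g W := P.continuousOn.comp hFa.continuousOn (fun z hz => hz)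
  have hg0 : g 0 = 0 := by
    show P (F (a 0)) = 0
    rw [ha0, hx0]
  have hgs : ∀ z ∈ W, z ≠ 0 → ContDiffAt ℝ ∞ g z ∧ g z ≠ 0 := by
    intro z hz hz0
    have hne : a z ≠ x₀ := fun hcon => hz0 (ha (by rw [hcon, ha0]))
    constructor
    · rw [← contMDiffAt_iff_contDiffAt]
      exact ContMDiffAt.comp (g := P) z (h1 _ hz)
        (ContMDiffAt.comp (g := F) z (hF _ hne) (haL z).contMDiffAt)
    · intro hcon
      apply hne
      apply F.injective
      apply P.injOn hz hx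
      rw [hx0]
      exact hcon
  obtain ⟨θ, hθ, hm, hpos, hone, hat⟩ := h n g W 1 hWo h0W one_pos hgc hg0 hgs
  obtain ⟨Ψ, hΨ, hΨP⟩ := exists_Psi P hP h1 h2 (rd θ)
    ⟨rd_inj hpos hm, rd_surj hθ.continuous hone⟩ (rd_smooth hθ) (rd_out hone)
  refine ⟨F.trans Ψ, fun x => ?_⟩
  by_cases hxx : x = x₀
  · obtain ⟨Φ, hΦ0, hΦ⟩ := haL 0
    have hΦx : Φ 0 = x := by
      rw [← hΦ hΦ0, ha0, hxx]
    have hxt : x ∈ Φ.target := by
      rw [← hΦx]
      exact Φ.map_source hΦ0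
    have hsx : Φ.symm x = 0 := by
      rw [← hΦx]
      exact Φ.left_inv hΦ0
    have h3 : ContMDiffAt (𝓡 n) I ∞ (fun z => P.symm (θ (‖g z‖ ^ 2) • g z)) 0 :=
      ContMDiffAt.comp (g := P.symm) 0 (h2 _) hat.contMDiffAt
    have h4 : ContMDiffAt (𝓡 n) (𝓡 n) ∞ Φ.symm x :=
      Φ.contMDiffOn_invFun.contMDiffAt (Φ.open_target.mem_nhds hxt)
    have h5 : ContMDiffAt (𝓡 n) I ∞
        (fun y => P.symm (θ (‖g (Φ.symm y)‖ ^ 2) • g (Φ.symm y))) x := by
      refine ContMDiffAt.comp (g := fun z => P.symm (θ (‖g z‖ ^ 2) • g z)) x ?_ h4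
      rw [hsx]
      exact h3
    refine h5.congr_of_eventuallyEq ?_
    have hx' : x ∈ F ⁻¹' P.source := by
      rw [hxx]
      exact hx
    filter_upwards [Φ.open_target.mem_nhds hxt,
      (P.open_source.preimage F.continuous).mem_nhds hx'] with y hy hy2
    show Ψ (F y) = _
    rw [hΨP _ hy2]
    have h6 : a (Φ.symm y) = y := (hΦ (Φ.map_target hy)).trans (Φ.right_inv hy)
    show P.symm (rd θ (P (F y))) =
      P.symm (θ (‖P (F (a (Φ.symm y)))‖ ^ 2) • P (F (a (Φ.symm y))))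
    rw [h6]
    rfl
  · exact ContMDiffAt.comp (g := Ψ) x hΨ.contMDiffAt (hF x hxx)

end gen

/-! ### The product of spheres -/

theorem ste_neg (k : ℕ) (v : Sp k) : ste k (-v) v = 0 := by
  have := Fact.mk (@finrank_euclideanSpace_fin ℝ _ (k + 1))
  show (OrthonormalBasis.fromOrthogonalSpanSingleton k
    (ne_zero_of_mem_unit_sphere (-v))).repr (stereographic (norm_eq_of_mem_sphere (-v)) v) = 0
  rw [stereographic_neg_apply, map_zero]

theorem ste_symm_smooth (k : ℕ) (a : Sp k) (z : E k) :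
    ContMDiffAt (𝓡 k) (𝓡 k) ∞ (ste k a).symm z := by
  have := Fact.mk (@finrank_euclideanSpace_fin ℝ _ (k + 1))
  refine contMDiffAt_symm_of_mem_maximalAtlas (IsManifold.subset_maximalAtlas ⟨a, rfl⟩) ?_
  rw [ste_target]
  trivial

theorem main : S_FLT → S_FLP := by
  intro h M _ _ _ F x₀ hF
  have hfr : Module.finrank ℝ (E 1 × E 3) = Module.finrank ℝ (E 4) := by
    rw [Module.finrank_prod]
    simp
  let J : (E 1 × E 3) ≃L[ℝ] E 4 := ContinuousLinearEquiv.ofFinrankEq hfr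
  let a : Sp 1 := -(F x₀).1
  let b : Sp 3 := -(F x₀).2
  let P : OpenPartialHomeomorph (Sp 1 × Sp 3) (E 4) :=
    ((ste 1 a).prod (ste 3 b)) ≫ₕ J.toHomeomorph.toOpenPartialHomeomorph
  have hsrc : ∀ u, u ∈ P.source ↔ u.1 ≠ a ∧ u.2 ≠ b := by
    intro u
    simp [P, ste_source]
  have htgt : P.target = univ := by
    ext y
    simp [P, ste_target]
  have hPx : ∀ u, P u = J (ste 1 a u.1, ste 3 b u.2) := fun u => rfl
  have hPs : ∀ z, P.symm z = ((ste 1 a).symm (J.symm z).1, (ste 3 b).symm (J.symm z).2) :=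
    fun z => rfl
  refine gen (I := (𝓡 1).prod (𝓡 3)) h P htgt ?_ ?_ F x₀ ?_ ?_ hF
  · intro u hu
    rw [hsrc] at hu
    have h3 : ContMDiffAt ((𝓡 1).prod (𝓡 3)) (𝓡 1) ∞ (fun u : Sp 1 × Sp 3 => ste 1 a u.1) u :=
      ContMDiffAt.comp (g := ste 1 a) u (ste_smooth 1 a _ hu.1) contMDiffAt_fst
    have h4 : ContMDiffAt ((𝓡 1).prod (𝓡 3)) (𝓡 3) ∞ (fun u : Sp 1 × Sp 3 => ste 3 b u.2) u :=
      ContMDiffAt.comp (g := ste 3 b) u (ste_smooth 3 b _ hu.2) contMDiffAt_snd
    have h5 : ContMDiffAt ((𝓡 1).prod (𝓡 3)) 𝓘(ℝ, E 1 × E 3) ∞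
        (fun u : Sp 1 × Sp 3 => (ste 1 a u.1, ste 3 b u.2)) u := h3.prodMk_space h4
    exact ContMDiffAt.comp (g := J) u J.contDiff.contMDiff.contMDiffAt h5
  · intro z
    have h3 : ContMDiffAt (𝓡 4) 𝓘(ℝ, E 1 × E 3) ∞ (fun z => J.symm z) z :=
      J.symm.contDiff.contMDiff.contMDiffAt
    have h4 : ContMDiffAt (𝓡 4) (𝓡 1) ∞ (fun z => (J.symm z).1) z :=
      (contDiff_fst.comp J.symm.contDiff).contMDiff.contMDiffAt
    have h5 : ContMDiffAt (𝓡 4) (𝓡 3) ∞ (fun z => (J.symm z).2) z :=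
      (contDiff_snd.comp J.symm.contDiff).contMDiff.contMDiffAt
    exact (ContMDiffAt.comp (g := (ste 1 a).symm) z (ste_symm_smooth 1 a _) h4).prodMk
      (ContMDiffAt.comp (g := (ste 3 b).symm) z (ste_symm_smooth 3 b _) h5)
  · rw [hsrc]
    exact ⟨ne_neg_of_mem_unit_sphere ℝ _, ne_neg_of_mem_unit_sphere ℝ _⟩
  · rw [hPx]
    have h3 : ste 1 a (F x₀).1 = 0 := ste_neg 1 _
    have h4 : ste 3 b (F x₀).2 = 0 := ste_neg 3 _
    rw [h3, h4]
    exact J.map_zero

end Pool.Agent.N550.TS.Flp
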