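import Pool.Agent.N550.KH.Stm

/-!
# Project TS: statements

Smooth homeomorphisms onto closed 4-manifolds `N` such that the complement of an open cell can be
compressed into every neighbourhood of a 2-complex (all simply connected `N` have this property).
The 2-handle modification of project KH is improved: it produces a homeomorphism.
-/

set_option autoImplicit false

open Set Filter Topology Metric Function MeasureTheory
open scoped Manifold ContDiff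

noncomputable section

namespace Pool.Agent.N550.TS

open Pool.Agent.Y522 Pool.Agent.N550.KH

/-- Flattened rescaling of a smooth function with compact support. -/
def S_FLAT : Prop :=
  ∀ (k : ℕ) (u : E 2 → E k → E 2) (ρ : ℝ), ContDiff ℝ ∞ (fun p : E 2 × E k => u p.1 p.2) →
    (∀ x w, ρ ≤ ‖x‖ → u x w = 0) →
    ContDiff ℝ ∞ (fun p : E 2 × ℝ × E k =>
      expNegInvGlue p.2.1 • p.2.1 • u (p.2.1⁻¹ • p.1) p.2.2)

/-- Interpolation between the identity and a family of smooth homeomorphisms of the plane with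
compact support, through smooth homeomorphisms. -/
def S_INT : Prop :=
  ∀ (k : ℕ) (u : E 2 → E k → E 2) (ρ₁ ρ₂ ε : ℝ), 0 < ρ₁ → ρ₁ < ρ₂ → 0 < ε →
    ContDiff ℝ ∞ (fun p : E 2 × E k => u p.1 p.2) → (∀ x w, ρ₁ ≤ ‖x‖ → u x w = 0) →
    (∀ w, ‖w‖ ≤ ε → Bijective fun x => x + u x w) →
    ∃ (ψ : E 2 → E k → E 2) (a : ℝ), 0 < a ∧ a < ε / 2 ∧
      ContDiff ℝ ∞ (fun p : E 2 × E k => ψ p.1 p.2) ∧
      (∀ w, ‖w‖ ≤ ε → Bijective fun y => ψ y w) ∧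
      (∀ y w, ρ₂ ≤ ‖y‖ → ψ y w = y) ∧ (∀ y w, ‖w‖ ≤ a → ψ y w = y) ∧
      ∀ y w, ε / 2 ≤ ‖w‖ → ψ y w = y + u y w

/-- Good coordinates near the core disc of a 2-handle. -/
def S_STR : Prop :=
  ∀ (k : ℕ) (M : Type) [TopologicalSpace M] [CompactSpace M] [T2Space M]
    [ChartedSpace (E (2 + k)) M] [IsManifold (𝓡 (2 + k)) ∞ M]
    (F : OpenPartialHomeomorph M (E (2 + k))), F.target = univ →
    (∀ x ∈ F.source, vp 2 k (F x) = 0 → ‖up 2 k (F x)‖ < 2 → Sm (2 + k) F x ∧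
      Surjective (mfderiv (𝓡 (2 + k)) (𝓡 k) (fun y => vp 2 k (F y)) x)) →
    (∀ x ∈ F.source, vp 2 k (F x) = 0 → 1 ≤ ‖up 2 k (F x)‖ → LD (2 + k) F x) →
    ∃ (T : M → E 2) (u : E 2 → E k → E 2) (ρ ε : ℝ) (W : Set M), 0 < ρ ∧ ρ < 1 ∧ 0 < ε ∧
      IsOpen W ∧ W ⊆ F.source ∧ (∀ x ∈ W, Sm (2 + k) F x) ∧
      (∀ x ∈ W, ContMDiffAt (𝓡 (2 + k)) (𝓡 2) ∞ T x) ∧
      (∀ x ∈ W, LD (2 + k) (fun y => jn 2 k (T y) (vp 2 k (F y))) x) ∧
      InjOn (fun y => jn 2 k (T y) (vp 2 k (F y))) W ∧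
      (∀ y w, ‖y‖ ≤ 1 → ‖w‖ ≤ ε → ∃ x ∈ W, T x = y ∧ vp 2 k (F x) = w) ∧
      ContDiff ℝ ∞ (fun p : E 2 × E k => u p.1 p.2) ∧ (∀ y w, ρ ≤ ‖y‖ → u y w = 0) ∧
      (∀ x ∈ W, ‖T x‖ ≤ 1 → ‖vp 2 k (F x)‖ ≤ ε →
        up 2 k (F x) = T x + u (T x) (vp 2 k (F x))) ∧
      (∀ w, ‖w‖ ≤ ε → Bijective fun y => y + u y w) ∧
      ∀ x ∈ F.source, vp 2 k (F x) = 0 → ‖up 2 k (F x)‖ ≤ 1 → x ∈ W ∧ ‖T x‖ ≤ 1

/-- The core disc of a 2-handle: the modification is a homeomorphism. -/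
def S_HND2 : Prop :=
  ∀ (k : ℕ) (M : Type) [TopologicalSpace M] [CompactSpace M] [T2Space M]
    [ChartedSpace (E (2 + k)) M] [IsManifold (𝓡 (2 + k)) ∞ M]
    (F : OpenPartialHomeomorph M (E (2 + k))), F.target = univ →
    (∀ x ∈ F.source, vp 2 k (F x) = 0 → ‖up 2 k (F x)‖ < 2 → Sm (2 + k) F x ∧
      Surjective (mfderiv (𝓡 (2 + k)) (𝓡 k) (fun y => vp 2 k (F y)) x)) →
    (∀ x ∈ F.source, vp 2 k (F x) = 0 → 1 ≤ ‖up 2 k (F x)‖ → LD (2 + k) F x) →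
    ∃ (F' : OpenPartialHomeomorph M (E (2 + k))) (C : Set M), F'.source = F.source ∧
      F'.target = univ ∧ IsCompact C ∧ C ⊆ F.source ∧
      (∀ x ∈ C, Sm (2 + k) F x ∧ ‖up 2 k (F x)‖ < 1) ∧
      (∀ x ∈ F.source, x ∉ C → F' x = F x) ∧
      (∀ x ∈ F.source, Sm (2 + k) F x → Sm (2 + k) F' x) ∧
      ∀ x ∈ F.source, vp 2 k (F' x) = 0 → ‖up 2 k (F' x)‖ ≤ 1 → LD (2 + k) F' x

/-- Step 2: the 2-handles, attached to `K`. -/
def S_TWO2 : Prop :=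
  ∀ (k a : ℕ) (M N : Type) [TopologicalSpace M] [CompactSpace M] [T2Space M]
    [ChartedSpace (E (2 + k)) M] [IsManifold (𝓡 (2 + k)) ∞ M] [TopologicalSpace N]
    [CompactSpace N] [T2Space N] [ChartedSpace (E (2 + k)) N] [IsManifold (𝓡 (2 + k)) ∞ N]
    (f : M ≃ₜ N) (h : Fin a → E (2 + k) → N) (K : Set N), 0 < k →
    NullH (2 + k) (f '' Bad (2 + k) f) → (∀ i, Injective (h i)) →
    (∀ i z, LD (2 + k) (h i) z) → (∀ i z, h i z ∈ K ↔ 1 ≤ ‖up 2 k z‖) →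
    (∀ i j z w, i ≠ j → h i z ≠ h j w) → (∀ x, f x ∈ K → LD (2 + k) f x) → IsClosed K →
    ∃ f' : M ≃ₜ N, NullH (2 + k) (f' '' Bad (2 + k) f') ∧
      ∀ x, f' x ∈ K ∪ ⋃ i, h i '' {z | vp 2 k z = 0 ∧ ‖up 2 k z‖ ≤ 1} → LD (2 + k) f' x

/-- A handle decomposition of a closed 4-manifold whose handles of index at least three lie in an
open cell `c`: one 0-handle `b`, the core arcs of the 1-handles `l i`, a compact set `K` (the union
of the handles of index at most one) which can be compressed into every neighbourhood of the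
0-handle and of the core arcs, the 2-handles `h i`, attached to `K`, and an open cell `c` whose
complement can be compressed into every neighbourhood of the union of `K` and of the core discs. -/
structure Handles2 (N : Type) [TopologicalSpace N] [ChartedSpace (E 4) N] (a d : ℕ)
    (b : E 4 → N) (l : Fin a → E (1 + 3) → N) (K : Set N) (h : Fin d → E (2 + 2) → N)
    (c : E 4 → N) : Prop where
  b_inj : Injective b
  b_ld : ∀ z, LD 4 b z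
  l_inj : ∀ i, Injective (l i)
  l_ld : ∀ i z, LD 4 (l i) z
  l_att : ∀ i z, l i z ∈ b '' closedBall 0 1 ↔ 1 ≤ ‖up 1 3 z‖
  l_dis : ∀ i j z w, i ≠ j → l i z ≠ l j w
  K_cpt : IsCompact K
  K_cmp : ∀ O : Set N, IsOpen O →
    b '' closedBall 0 1 ∪ (⋃ i, l i '' {z | vp 1 3 z = 0 ∧ ‖up 1 3 z‖ ≤ 1}) ⊆ O →
    ∃ κ : N → N, IsDf 4 κ ∧ K ⊆ κ '' O
  h_inj : ∀ i, Injective (h i)
  h_ld : ∀ i z, LD 4 (h i) z
  h_att : ∀ i z, h i z ∈ K ↔ 1 ≤ ‖up 2 2 z‖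
  h_dis : ∀ i j z w, i ≠ j → h i z ≠ h j w
  c_inj : Injective c
  c_ld : ∀ z, LD 4 c z
  c_cmp : ∀ O : Set N, IsOpen O →
    K ∪ (⋃ i, h i '' {z | vp 2 2 z = 0 ∧ ‖up 2 2 z‖ ≤ 1}) ⊆ O →
    ∃ κ : N → N, IsDf 4 κ ∧ (range c)ᶜ ⊆ κ '' O

/-- The theorem. -/
def S_FIN2 : Prop :=
  ∀ (M N : Type) [TopologicalSpace M] [CompactSpace M] [T2Space M] [ChartedSpace (E 4) M]
    [IsManifold (𝓡 4) ∞ M] [TopologicalSpace N] [CompactSpace N] [T2Space N]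
    [ChartedSpace (E 4) N] [IsManifold (𝓡 4) ∞ N] (a d : ℕ) (b : E 4 → N)
    (l : Fin a → E (1 + 3) → N) (K : Set N) (h : Fin d → E (2 + 2) → N) (c : E 4 → N),
    Handles2 N a d b l K h c → ∀ f : M ≃ₜ N, NullC 4 (f '' Bad 4 f) →
    ∃ G : M ≃ₜ N, ∃ x₀ : M, ∀ x, x ≠ x₀ → LD 4 G x

end Pool.Agent.N550.TS
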