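import Pool.Agent.N550.TS.Stm2
import Pool.Agent.N550.PS.Stm

/-!
# Project TS: statements, third part

Flattening for homeomorphisms onto the product of the circle and the 3-sphere.
-/

set_option autoImplicit false

open Set Filter Topology Metric Function MeasureTheory
open scoped Manifold ContDiff

noncomputable section

namespace Pool.Agent.N550.TS

open Pool.Agent.Y522 Pool.Agent.N550.SH Pool.Agent.N550.KH

/-- A homeomorphism onto `S¹ × S³` which is smooth off one point can be made smooth. -/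
def S_FLP : Prop :=
  ∀ (M : Type) [TopologicalSpace M] [ChartedSpace (E 4) M] [IsManifold (𝓡 4) ∞ M]
    (F : M ≃ₜ Sp 1 × Sp 3) (x₀ : M),
    (∀ x, x ≠ x₀ → ContMDiffAt (𝓡 4) ((𝓡 1).prod (𝓡 3)) ∞ F x) →
    ∃ f : M ≃ₜ Sp 1 × Sp 3, ContMDiff (𝓡 4) ((𝓡 1).prod (𝓡 3)) ∞ f

end Pool.Agent.N550.TS
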